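import Pool.Agent.Helper69.Cart.Conv1

set_option autoImplicit false

open Matrix Complex Polynomial

namespace Pool.Agent.Helper69.Cart

open Pool.Agent.Helper44.Cart

open scoped ComplexOrder

variable {n : ℕ}

/-! ## Placement of a 2x2 block -/

/-- the two basis vectors with indices `i`, `k` -/
def plE (i k : Fin n) : Matrix (Fin n) (Fin 2) ℂ :=
  Matrix.of fun x t => if t = 0 then (if x = i then 1 else 0) else (if x = k then 1 else 0)

/-- the diagonal outside `{i, k}` -/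
def plD (i k : Fin n) (d : Fin n → ℂ) : Fin n → ℂ := fun x => if x = i ∨ x = k then 0 else d x

/-- the block `M` in the coordinates `i`, `k` and the diagonal `d` elsewhere -/
def pl (i k : Fin n) (M : Matrix (Fin 2) (Fin 2) ℂ) (d : Fin n → ℂ) : Matrix (Fin n) (Fin n) ℂ :=
  plE i k * M * (plE i k)ᵀ + Matrix.diagonal (plD i k d)

lemma plE_orth {i k : Fin n} (hik : i ≠ k) : (plE i k)ᵀ * plE i k = 1 := by
  ext t u
  rw [Matrix.mul_apply]
  fin_cases t <;> fin_cases u <;> simp [plE, hik, hik.symm]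

lemma plD_mul_E (i k : Fin n) (d : Fin n → ℂ) : Matrix.diagonal (plD i k d) * plE i k = 0 := by
  ext x t
  rw [Matrix.diagonal_mul]
  fin_cases t <;> by_cases h1 : x = i <;> by_cases h2 : x = k <;> simp [plE, plD, h1, h2]

lemma plE_mul_D (i k : Fin n) (d : Fin n → ℂ) : (plE i k)ᵀ * Matrix.diagonal (plD i k d) = 0 := by
  have h := congrArg Matrix.transpose (plD_mul_E i k d)
  rwa [Matrix.transpose_mul, Matrix.diagonal_transpose, Matrix.transpose_zero] at h

lemma pl_mul {i k : Fin n} (hik : i ≠ k) (M M' : Matrix (Fin 2) (Fin 2) ℂ) (d d' : Fin n → ℂ) :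
    pl i k M d * pl i k M' d' = pl i k (M * M') (fun x => d x * d' x) := by
  unfold pl
  have e1 : plE i k * M * (plE i k)ᵀ * (plE i k * M' * (plE i k)ᵀ) =
      plE i k * (M * M') * (plE i k)ᵀ := by
    calc plE i k * M * (plE i k)ᵀ * (plE i k * M' * (plE i k)ᵀ)
        = plE i k * M * ((plE i k)ᵀ * plE i k) * M' * (plE i k)ᵀ := by
          simp only [Matrix.mul_assoc]
      _ = _ := by rw [plE_orth hik, Matrix.mul_one]; simp only [Matrix.mul_assoc]
  have e2 : plE i k * M * (plE i k)ᵀ * Matrix.diagonal (plD i k d') = 0 := by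
    rw [Matrix.mul_assoc, plE_mul_D, Matrix.mul_zero]
  have e3 : Matrix.diagonal (plD i k d) * (plE i k * M' * (plE i k)ᵀ) = 0 := by
    rw [← Matrix.mul_assoc, ← Matrix.mul_assoc, plD_mul_E, Matrix.zero_mul, Matrix.zero_mul]
  have e4 : Matrix.diagonal (plD i k d) * Matrix.diagonal (plD i k d') =
      Matrix.diagonal (plD i k fun x => d x * d' x) := by
    rw [Matrix.diagonal_mul_diagonal]
    congr 1
    ext x
    unfold plD
    by_cases h : x = i ∨ x = k <;> simp [h]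
  rw [Matrix.add_mul, Matrix.mul_add, Matrix.mul_add, e1, e2, e3, e4, add_zero, zero_add]

lemma pl_add (i k : Fin n) (M M' : Matrix (Fin 2) (Fin 2) ℂ) (d d' : Fin n → ℂ) :
    pl i k M d + pl i k M' d' = pl i k (M + M') (fun x => d x + d' x) := by
  unfold pl
  have e4 : Matrix.diagonal (plD i k d) + Matrix.diagonal (plD i k d') =
      Matrix.diagonal (plD i k fun x => d x + d' x) := by
    rw [Matrix.diagonal_add]
    congr 1
    ext x
    unfold plD
    by_cases h : x = i ∨ x = k <;> simp [h]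
  rw [Matrix.mul_add, Matrix.add_mul, ← e4]
  abel

lemma pl_smul (i k : Fin n) (c : ℂ) (M : Matrix (Fin 2) (Fin 2) ℂ) (d : Fin n → ℂ) :
    c • pl i k M d = pl i k (c • M) (fun x => c * d x) := by
  unfold pl
  have e4 : c • Matrix.diagonal (plD i k d) =
      Matrix.diagonal (plD i k fun x => c * d x) := by
    rw [← Matrix.diagonal_smul]
    congr 1
    ext x
    unfold plD
    by_cases h : x = i ∨ x = k <;> simp [h]
  rw [smul_add, e4, Matrix.mul_smul, Matrix.smul_mul]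

lemma plE_star (i k : Fin n) : (plE i k)ᴴ = (plE i k)ᵀ := by
  ext t x
  rw [Matrix.conjTranspose_apply, Matrix.transpose_apply]
  fin_cases t <;> by_cases h1 : x = i <;> by_cases h2 : x = k <;> simp [plE, h1, h2]

lemma pl_star (i k : Fin n) (M : Matrix (Fin 2) (Fin 2) ℂ) (d : Fin n → ℂ) :
    (pl i k M d)ᴴ = pl i k Mᴴ (fun x => star (d x)) := by
  unfold pl
  have e4 : (Matrix.diagonal (plD i k d))ᴴ =
      Matrix.diagonal (plD i k fun x => star (d x)) := by
    rw [Matrix.diagonal_conjTranspose]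
    congr 1
    ext x
    unfold plD
    by_cases h : x = i ∨ x = k <;> simp [h]
  have e5 : ((plE i k)ᵀ)ᴴ = plE i k := by
    rw [← plE_star, Matrix.conjTranspose_conjTranspose]
  rw [Matrix.conjTranspose_add, e4, Matrix.conjTranspose_mul, Matrix.conjTranspose_mul, e5,
    plE_star, Matrix.mul_assoc]

lemma pl_apply_ii {i k : Fin n} (hik : i ≠ k) (M : Matrix (Fin 2) (Fin 2) ℂ) (d : Fin n → ℂ) :
    pl i k M d i i = M 0 0 := by
  unfold pl
  rw [Matrix.add_apply, Matrix.diagonal_apply_eq, Matrix.mul_apply]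
  simp [Matrix.mul_apply, plE, plD, hik]

lemma pl_apply_xx {i k x : Fin n} (hxi : x ≠ i) (hxk : x ≠ k) (M : Matrix (Fin 2) (Fin 2) ℂ)
    (d : Fin n → ℂ) : pl i k M d x x = d x := by
  unfold pl
  rw [Matrix.add_apply, Matrix.diagonal_apply_eq, Matrix.mul_apply]
  simp [Matrix.mul_apply, plE, plD, hxi, hxk]

lemma pl_dg {i k : Fin n} (hik : i ≠ k) (a : Fin n → ℝ) :
    pl i k (dg ![a i, a k]) (fun x => (a x : ℂ)) = dg a := by
  ext x y
  unfold pl dg
  rw [Matrix.add_apply, Matrix.diagonal_apply, Matrix.diagonal_apply, Matrix.mul_apply]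
  simp only [Matrix.mul_apply, Fin.sum_univ_two, Matrix.transpose_apply, Matrix.diagonal_apply]
  by_cases hxi : x = i
  · subst hxi
    by_cases hyx : y = x
    · subst hyx
      simp [plE, plD, hik]
    · by_cases hyk : y = k
      · subst hyk
        simp [plE, hik, hik.symm]
      · simp [plE, hyx, hyk, hik, Ne.symm hyx]
  · by_cases hxk : x = k
    · subst hxk
      by_cases hyx : y = x
      · subst hyx
        simp [plE, plD, hik.symm]
      · by_cases hyi : y = i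
        · subst hyi
          simp [plE, hik, hik.symm]
        · simp [plE, hyx, hyi, hik.symm, Ne.symm hyx]
    · by_cases hyx : y = x
      · subst hyx
        simp [plE, plD, hxi, hxk]
      · simp [plE, hxi, hxk, Ne.symm hyx]

lemma pl_one {i k : Fin n} (hik : i ≠ k) : pl i k 1 (fun _ => 1) = 1 := by
  have h := pl_dg hik (fun _ : Fin n => (1 : ℝ))
  have h1 : dg (fun _ : Fin n => (1 : ℝ)) = 1 := by rw [dg_const]; simp
  have h2 : dg ![(1 : ℝ), 1] = 1 := by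
    have : ![(1 : ℝ), 1] = fun _ => 1 := by
      ext t; fin_cases t <;> rfl
    rw [this, dg_const]; simp
  simpa [h1, h2] using h

lemma pl_isU {i k : Fin n} (hik : i ≠ k) {W : Matrix (Fin 2) (Fin 2) ℂ} (hW : IsU W) :
    IsU (pl i k W (fun _ => 1)) := by
  apply isU_of_left
  rw [pl_star, pl_mul hik, hW.1]
  simp only [star_one, mul_one]
  exact pl_one hik

/-! ## B3: the 2x2 computation -/

lemma cv_two {a1 a2 b1 b2 : ℝ} (h : (a1 * b1 + a2 * b2) * (a1 * b2 + a2 * b1) < 0) :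
    ∃ R W : Matrix (Fin 2) (Fin 2) ℂ, IsU R ∧ IsU W ∧
      a1 ^ 2 + b1 ^ 2 < ((Wᴴ * ((dg ![a1, a2] + I • (R * dg ![b1, b2] * Rᴴ))ᴴ *
        (dg ![a1, a2] + I • (R * dg ![b1, b2] * Rᴴ))) * W) 0 0).re := by
  set t1 : ℝ := a1 * b2 + a2 * b1 with ht1
  set t2 : ℝ := a1 * b1 + a2 * b2 with ht2
  have hne : t2 - t1 ≠ 0 := by
    intro h0
    have : t2 = t1 := by linarith
    rw [this] at h
    nlinarith [sq_nonneg t1]
  have hc : 0 ≤ t2 / (t2 - t1) := by
    have e : t2 / (t2 - t1) = (t2 * (t2 - t1)) / (t2 - t1) ^ 2 := by field_simp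
    rw [e]
    apply div_nonneg _ (by positivity)
    nlinarith [sq_nonneg t2]
  have hs : 0 ≤ -t1 / (t2 - t1) := by
    have e : -t1 / (t2 - t1) = (-t1 * (t2 - t1)) / (t2 - t1) ^ 2 := by field_simp
    rw [e]
    apply div_nonneg _ (by positivity)
    nlinarith [sq_nonneg t1]
  set c : ℝ := Real.sqrt (t2 / (t2 - t1)) with hcd
  set s : ℝ := Real.sqrt (-t1 / (t2 - t1)) with hsd
  have hc2 : c ^ 2 = t2 / (t2 - t1) := Real.sq_sqrt hc
  have hs2 : s ^ 2 = -t1 / (t2 - t1) := Real.sq_sqrt hs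
  have hcs : c ^ 2 + s ^ 2 = 1 := by
    rw [hc2, hs2, ← add_div]
    rw [show t2 + -t1 = t2 - t1 by ring, div_self hne]
  have hzero : c ^ 2 * t1 + s ^ 2 * t2 = 0 := by
    rw [hc2, hs2]
    field_simp
    ring
  let R : Matrix (Fin 2) (Fin 2) ℂ := !![(c : ℂ), -(s : ℂ); (s : ℂ), (c : ℂ)]
  have hR : IsU R := by
    apply isU_of_left
    have h1 : (c : ℂ) ^ 2 + (s : ℂ) ^ 2 = 1 := by exact_mod_cast hcs
    ext x y
    rw [Matrix.mul_apply, Fin.sum_univ_two]
    simp only [R, Matrix.conjTranspose_apply]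
    fin_cases x <;> fin_cases y <;> simp <;> first | linear_combination h1 | ring
  set p : ℝ := c ^ 2 * b1 + s ^ 2 * b2 with hp
  set q : ℝ := c * s * (b1 - b2) with hq
  set r : ℝ := s ^ 2 * b1 + c ^ 2 * b2 with hr
  have hM : R * dg ![b1, b2] * Rᴴ = !![(p : ℂ), (q : ℂ); (q : ℂ), (r : ℂ)] := by
    ext x y
    rw [Matrix.mul_apply, Fin.sum_univ_two]
    simp only [dg, Matrix.mul_diagonal, Matrix.conjTranspose_apply, R, hp, hq, hr]
    fin_cases x <;> fin_cases y <;> simp <;> ring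
  set X : Matrix (Fin 2) (Fin 2) ℂ := dg ![a1, a2] + I • (R * dg ![b1, b2] * Rᴴ) with hX
  have hX' : X = !![(a1 : ℂ) + I * p, I * q; I * q, (a2 : ℂ) + I * r] := by
    rw [hX, hM]
    ext x y
    fin_cases x <;> fin_cases y <;> simp [dg]
  have hH : (Xᴴ * X).IsHermitian := Matrix.isHermitian_conjTranspose_mul_self X
  obtain ⟨V, hV, hVH⟩ := exists_diag hH
  set lam : Fin 2 → ℝ := hH.eigenvalues with hlam
  have htr : lam 0 + lam 1 = a1 ^ 2 + a2 ^ 2 + b1 ^ 2 + b2 ^ 2 := by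
    have h1 : Matrix.trace (Xᴴ * X) = ((lam 0 + lam 1 : ℝ) : ℂ) := by
      have h2 := trace_conj_pow hV lam 1
      rw [pow_one, ← hVH] at h2
      rw [h2]
      simp [Fin.sum_univ_two]
    have h2 : Matrix.trace (Xᴴ * X) = ((a1 ^ 2 + a2 ^ 2 + b1 ^ 2 + b2 ^ 2 : ℝ) : ℂ) := by
      rw [hX', Matrix.trace_fin_two]
      simp only [Matrix.mul_apply, Fin.sum_univ_two, Matrix.conjTranspose_apply]
      simp
      have e1 : (c : ℂ) ^ 2 + (s : ℂ) ^ 2 = 1 := by exact_mod_cast hcs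
      rw [hp, hq, hr]
      push_cast
      ring_nf
      simp only [Complex.I_sq]
      linear_combination ((b1 : ℂ) ^ 2 + (b2 : ℂ) ^ 2) * ((c : ℂ) ^ 2 + (s : ℂ) ^ 2 + 1) * e1
    exact_mod_cast h1.symm.trans h2
  have hdet : lam 0 * lam 1 = (a1 * a2 - b1 * b2) ^ 2 := by
    have h1 : Matrix.det (Xᴴ * X) = ((lam 0 * lam 1 : ℝ) : ℂ) := by
      have h3 : Matrix.det (V * dg lam * Vᴴ) = Matrix.det (dg lam) := by
        rw [Matrix.det_mul, Matrix.det_mul, mul_comm (Matrix.det V), mul_assoc, ← Matrix.det_mul,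
          hV.2, Matrix.det_one, mul_one]
      rw [hVH, h3, dg, Matrix.det_diagonal, Fin.prod_univ_two]
      push_cast
      rfl
    have h2 : Matrix.det (Xᴴ * X) = (((a1 * a2 - b1 * b2) ^ 2 : ℝ) : ℂ) := by
      have e1 : (c : ℂ) ^ 2 + (s : ℂ) ^ 2 = 1 := by exact_mod_cast hcs
      have e2 : (c : ℂ) ^ 2 * ((a1 : ℂ) * b2 + a2 * b1) + (s : ℂ) ^ 2 * ((a1 : ℂ) * b1 + a2 * b2) = 0 := by
        exact_mod_cast hzero
      have h3 : Matrix.det X = (((a1 * a2 - b1 * b2) : ℝ) : ℂ) := by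
        rw [hX', Matrix.det_fin_two_of, hp, hq, hr]
        push_cast
        ring_nf
        simp only [Complex.I_sq]
        linear_combination I * e2 - (b1 : ℂ) * b2 * ((c : ℂ) ^ 2 + (s : ℂ) ^ 2 + 1) * e1
      rw [Matrix.det_mul, Matrix.det_conjTranspose, h3, Complex.star_def, Complex.conj_ofReal]
      push_cast
      ring
    exact_mod_cast h1.symm.trans h2
  have hlt : lam 0 * lam 1 < (a1 ^ 2 + b1 ^ 2) * (a2 ^ 2 + b2 ^ 2) := by
    rw [hdet]
    have ht : t1 ≠ 0 := by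
      intro h0
      rw [h0, mul_zero] at h
      exact lt_irrefl _ h
    have : 0 < t1 ^ 2 := by positivity
    nlinarith
  have hor : a1 ^ 2 + b1 ^ 2 < lam 0 ∨ a1 ^ 2 + b1 ^ 2 < lam 1 := by
    by_contra hcon
    push Not at hcon
    have h3 := mul_nonneg (sub_nonneg.2 hcon.1) (sub_nonneg.2 hcon.2)
    nlinarith
  have hfin : ∀ (V' : Matrix (Fin 2) (Fin 2) ℂ) (mu : Fin 2 → ℝ), IsU V' →
      Xᴴ * X = V' * dg mu * V'ᴴ → ((V'ᴴ * (Xᴴ * X) * V') 0 0).re = mu 0 := by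
    intro V' mu hV' he
    have e : V'ᴴ * (V' * dg mu * V'ᴴ) * V' = dg mu := by
      calc V'ᴴ * (V' * dg mu * V'ᴴ) * V' = (V'ᴴ * V') * dg mu * (V'ᴴ * V') := by
            simp only [Matrix.mul_assoc]
        _ = _ := by rw [hV'.1, Matrix.one_mul, Matrix.mul_one]
    rw [he, e]
    simp [dg]
  rcases hor with h0 | h0
  · exact ⟨R, V, hR, hV, by rw [hfin V lam hV hVH]; exact h0⟩
  · obtain ⟨V', hV', hVV⟩ := conj_perm hV lam (Equiv.swap 0 1)
    refine ⟨R, V', hR, hV', ?_⟩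
    rw [hfin V' _ hV' (hVH.trans hVV)]
    simpa using h0

/-! ## B4: assembly -/

lemma cv_eig_perm {A : Matrix (Fin n) (Fin n) ℂ} (a : Fin n → ℝ) (σ : Equiv.Perm (Fin n)) :
    HasEigenvalues A (fun i => a (σ i)) ↔ HasEigenvalues A a := by
  unfold HasEigenvalues
  rw [Equiv.prod_comp σ (fun i => (X - C (a i : ℂ)))]

lemma cv_swap_out {m k l : Fin n} (hk : m ≤ k) (hl : m ≤ l) (x : Fin n) :
    Equiv.swap k l x < m ↔ x < m := by
  rcases eq_or_ne x k with rfl | h1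
  · rw [Equiv.swap_apply_left]
    exact ⟨fun h => absurd h (not_lt.2 hl), fun h => absurd h (not_lt.2 hk)⟩
  · rcases eq_or_ne x l with rfl | h2
    · rw [Equiv.swap_apply_right]
      exact ⟨fun h => absurd h (not_lt.2 hk), fun h => absurd h (not_lt.2 hl)⟩
    · rw [Equiv.swap_apply_of_ne_of_ne h1 h2]

lemma cv_swap_in {m i j : Fin n} (hi : i < m) (hj : j < m) (x : Fin n) :
    Equiv.swap i j x < m ↔ x < m := by
  rcases eq_or_ne x i with rfl | h1
  · rw [Equiv.swap_apply_left]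
    exact ⟨fun _ => hi, fun _ => hj⟩
  · rcases eq_or_ne x j with rfl | h2
    · rw [Equiv.swap_apply_right]
      exact ⟨fun _ => hj, fun _ => hi⟩
    · rw [Equiv.swap_apply_of_ne_of_ne h1 h2]

lemma cv_conj_add {U V Z : Matrix (Fin n) (Fin n) ℂ} (a b : Fin n → ℝ) :
    Zᴴ * (U * dg a * Uᴴ + V * dg b * Vᴴ) * Z =
      (Uᴴ * Z)ᴴ * dg a * (Uᴴ * Z) + (Vᴴ * Z)ᴴ * dg b * (Vᴴ * Z) := by
  simp only [Matrix.conjTranspose_mul, Matrix.conjTranspose_conjTranspose, Matrix.mul_add,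
    Matrix.add_mul, Matrix.mul_assoc]

/-- the case of antitone squares -/
lemma cv_sorted (a b : Fin n → ℝ) (ha : ∀ x y, x ≤ y → a y ^ 2 ≤ a x ^ 2)
    (hb : ∀ x y, x ≤ y → b y ^ 2 ≤ b x ^ 2) (h : ¬ CondP a b) :
    ∃ s : Fin n → ℝ, Realizable a b s ∧
      ¬ SumRealizable (fun i => a i ^ 2) (fun i => b i ^ 2) (fun i => s i ^ 2) := by
  classical
  obtain ⟨i, k, j, l, hik, hjl, hil, hjk, hneg⟩ := cv_linked a b ha hb h
  set m : Fin n := min k l with hm
  have him : i < m := lt_min hik hil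
  have hjm : j < m := lt_min hjk hjl
  have hmk : m ≤ k := min_le_left _ _
  have hml : m ≤ l := min_le_right _ _
  set π : Equiv.Perm (Fin n) := Equiv.swap i j * Equiv.swap k l with hπ
  have hπi : π i = j := by
    rw [hπ, Equiv.Perm.mul_apply, Equiv.swap_apply_of_ne_of_ne hik.ne hil.ne,
      Equiv.swap_apply_left]
  have hπk : π k = l := by
    rw [hπ, Equiv.Perm.mul_apply, Equiv.swap_apply_left,
      Equiv.swap_apply_of_ne_of_ne hil.ne' hjl.ne']
  have hπm : ∀ x, π x < m ↔ x < m := by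
    intro x
    rw [hπ, Equiv.Perm.mul_apply, cv_swap_in him hjm, cv_swap_out hmk hml]
  obtain ⟨R, W, hR, hW, hlt⟩ := cv_two (a1 := a i) (a2 := a k) (b1 := b j) (b2 := b l) hneg
  set M2 : Matrix (Fin 2) (Fin 2) ℂ := R * dg ![b j, b l] * Rᴴ with hM2
  set X2 : Matrix (Fin 2) (Fin 2) ℂ := dg ![a i, a k] + I • M2 with hX2
  set b' : Fin n → ℝ := fun x => b (π x) with hb'
  set Rn : Matrix (Fin n) (Fin n) ℂ := pl i k R (fun _ => 1) with hRn
  have hRnU : IsU Rn := pl_isU hik.ne hR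
  set B : Matrix (Fin n) (Fin n) ℂ := Rn * dg b' * Rnᴴ with hB
  have hBpl : B = pl i k M2 (fun x => (b' x : ℂ)) := by
    have h1 : dg b' = pl i k (dg ![b j, b l]) (fun x => (b' x : ℂ)) := by
      have := pl_dg hik.ne b'
      rw [hb'] at this
      simp only [hπi, hπk] at this
      exact this.symm
    rw [hB, h1, hRn, pl_star, pl_mul hik.ne, pl_mul hik.ne, hM2]
    simp
  set Y : Matrix (Fin n) (Fin n) ℂ := dg a + I • B with hY
  have hYpl : Y = pl i k X2 (fun x => (a x : ℂ) + I * (b' x : ℂ)) := by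
    rw [hY, hBpl, pl_smul, ← pl_dg hik.ne a, pl_add]
  set Wn : Matrix (Fin n) (Fin n) ℂ := pl i k W (fun _ => 1) with hWn
  have hWnU : IsU Wn := pl_isU hik.ne hW
  have hcomp : Wnᴴ * (Yᴴ * Y) * Wn = pl i k (Wᴴ * (X2ᴴ * X2) * W)
      (fun x => star ((a x : ℂ) + I * (b' x : ℂ)) * ((a x : ℂ) + I * (b' x : ℂ))) := by
    rw [hYpl, hWn, pl_star, pl_star, pl_mul hik.ne, pl_mul hik.ne, pl_mul hik.ne]
    simp
  obtain ⟨W3, lam, hW3, hnn, hW3H⟩ : ∃ (W3 : Matrix (Fin n) (Fin n) ℂ) (lam : Fin n → ℝ),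
      IsU W3 ∧ (∀ x, 0 ≤ lam x) ∧ Yᴴ * Y = W3 * dg lam * W3ᴴ := by
    have hH : (Yᴴ * Y).IsHermitian := Matrix.isHermitian_conjTranspose_mul_self Y
    obtain ⟨W3, hW3, hW3H⟩ := exists_diag hH
    refine ⟨W3, hH.eigenvalues, hW3, fun x => ?_, hW3H⟩
    exact (Matrix.posSemidef_conjTranspose_mul_self Y).eigenvalues_nonneg x
  set s : Fin n → ℝ := fun x => Real.sqrt (lam x) with hs
  have hs2 : (fun x => s x ^ 2) = lam := by
    ext x
    exact Real.sq_sqrt (hnn x)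
  refine ⟨s, ⟨dg a, B, ?_, ?_, ?_, ?_⟩, ?_⟩
  · rw [hasEigenvalues_iff]
    exact ⟨1, isU_one, by simp⟩
  · rw [← cv_eig_perm b π, hasEigenvalues_iff]
    exact ⟨Rn, hRnU, rfl⟩
  · intro x
    exact Real.sqrt_nonneg _
  · rw [hs2, hasEigenvalues_iff]
    exact ⟨W3, hW3, hW3H⟩
  · rintro ⟨P, Q, hP, hQ, hPQ⟩
    rw [hasEigenvalues_iff] at hP hQ hPQ
    obtain ⟨U, hU, rfl⟩ := hP
    obtain ⟨V, hV, rfl⟩ := hQ
    obtain ⟨W1, hW1, hW1e⟩ := hPQ
    rw [hs2] at hW1e
    set Z : Matrix (Fin n) (Fin n) ℂ := W1 * W3ᴴ * Wn with hZ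
    have hZU : IsU Z := (hW1.mul hW3.conjTranspose).mul hWnU
    have hZe : Wnᴴ * (Yᴴ * Y) * Wn =
        Zᴴ * (U * dg (fun i => a i ^ 2) * Uᴴ + V * dg (fun i => b i ^ 2) * Vᴴ) * Z := by
      rw [hW1e, hW3H, hZ]
      have e : (W1 * W3ᴴ * Wn)ᴴ * (W1 * dg lam * W1ᴴ) * (W1 * W3ᴴ * Wn) =
          Wnᴴ * (W3 * ((W1ᴴ * W1) * dg lam * (W1ᴴ * W1)) * W3ᴴ) * Wn := by
        simp only [Matrix.conjTranspose_mul, Matrix.conjTranspose_conjTranspose, Matrix.mul_assoc]
      rw [e, hW1.1, Matrix.one_mul, Matrix.mul_one]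
    rw [cv_conj_add, hcomp] at hZe
    have hsa : ∀ x, x < m → a m ^ 2 ≤ a x ^ 2 := fun x hx => ha x m hx.le
    have hsa' : ∀ x, m ≤ x → a x ^ 2 ≤ a m ^ 2 := fun x hx => ha m x hx
    have hsb : ∀ x, x < m → b m ^ 2 ≤ b x ^ 2 := fun x hx => hb x m hx.le
    have hsb' : ∀ x, m ≤ x → b x ^ 2 ≤ b m ^ 2 := fun x hx => hb m x hx
    have k1 := cv_kyfan (hU.conjTranspose.mul hZU) (fun i => a i ^ 2) m hsa hsa'
    have k2 := cv_kyfan (hV.conjTranspose.mul hZU) (fun i => b i ^ 2) m hsb hsb'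
    set T : Finset (Fin n) := Finset.univ.filter (fun x => x < m) with hT
    have k3 : ∑ x ∈ T, ((pl i k (Wᴴ * (X2ᴴ * X2) * W)
        (fun x => star ((a x : ℂ) + I * (b' x : ℂ)) * ((a x : ℂ) + I * (b' x : ℂ)))) x x).re ≤
        ∑ x ∈ T, a x ^ 2 + ∑ x ∈ T, b x ^ 2 := by
      rw [hZe]
      simp only [Matrix.add_apply, Complex.add_re, Finset.sum_add_distrib]
      linarith
    have k4 : ∑ x ∈ T, b' x ^ 2 = ∑ x ∈ T, b x ^ 2 := by
      apply Finset.sum_equiv π
      · intro x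
        simp only [hT, Finset.mem_filter, Finset.mem_univ, true_and]
        exact (hπm x).symm
      · intro x _
        rfl
    have k5 : ∑ x ∈ T, (a x ^ 2 + b' x ^ 2) <
        ∑ x ∈ T, ((pl i k (Wᴴ * (X2ᴴ * X2) * W)
        (fun x => star ((a x : ℂ) + I * (b' x : ℂ)) * ((a x : ℂ) + I * (b' x : ℂ)))) x x).re := by
      have hi : ∀ x ∈ T, x ≠ i → ((pl i k (Wᴴ * (X2ᴴ * X2) * W)
        (fun x => star ((a x : ℂ) + I * (b' x : ℂ)) * ((a x : ℂ) + I * (b' x : ℂ)))) x x).re =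
          a x ^ 2 + b' x ^ 2 := by
        intro x hx hxi
        have hxk : x ≠ k := by
          rintro rfl
          have : x < m := by simpa [hT] using hx
          exact absurd this (not_lt.2 hmk)
        rw [pl_apply_xx hxi hxk]
        simp
        ring
      have hii : a i ^ 2 + b' i ^ 2 < ((pl i k (Wᴴ * (X2ᴴ * X2) * W)
        (fun x => star ((a x : ℂ) + I * (b' x : ℂ)) * ((a x : ℂ) + I * (b' x : ℂ)))) i i).re := by
        rw [pl_apply_ii hik.ne, hb']
        simp only [hπi]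
        exact hlt
      apply Finset.sum_lt_sum
      · intro x hx
        rcases eq_or_ne x i with rfl | hxi
        · exact hii.le
        · exact (hi x hx hxi).ge
      · refine ⟨i, ?_, hii⟩
        simpa [hT] using him
    rw [Finset.sum_add_distrib, k4] at k5
    linarith

/-- if the condition fails, the Horn description of the triples fails -/
theorem conv (a b : Fin n → ℝ) (h : ¬ CondP a b) :
    ∃ s : Fin n → ℝ, Realizable a b s ∧
      ¬ SumRealizable (fun i => a i ^ 2) (fun i => b i ^ 2) (fun i => s i ^ 2) := by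
  set σ : Equiv.Perm (Fin n) := Tuple.sort (fun x => -(a x) ^ 2) with hσ
  set τ : Equiv.Perm (Fin n) := Tuple.sort (fun x => -(b x) ^ 2) with hτ
  have ha : ∀ x y, x ≤ y → (a (σ y)) ^ 2 ≤ (a (σ x)) ^ 2 := by
    intro x y hxy
    have := Tuple.monotone_sort (fun x => -(a x) ^ 2) hxy
    simp only [Function.comp] at this
    linarith
  have hb : ∀ x y, x ≤ y → (b (τ y)) ^ 2 ≤ (b (τ x)) ^ 2 := by
    intro x y hxy
    have := Tuple.monotone_sort (fun x => -(b x) ^ 2) hxy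
    simp only [Function.comp] at this
    linarith
  have h' : ¬ CondP (fun x => a (σ x)) (fun x => b (τ x)) := by
    intro hc
    apply h
    intro i k j l hik hjl
    have := hc (σ.symm i) (σ.symm k) (τ.symm j) (τ.symm l) (σ.symm.injective.ne hik)
      (τ.symm.injective.ne hjl)
    simpa using this
  obtain ⟨s, ⟨A, B, hA, hB, hs⟩, hn⟩ := cv_sorted _ _ ha hb h'
  refine ⟨s, ⟨A, B, (cv_eig_perm a σ).1 hA, (cv_eig_perm b τ).1 hB, hs⟩, ?_⟩
  rintro ⟨P, Q, hP, hQ, hPQ⟩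
  exact hn ⟨P, Q, (cv_eig_perm (fun i => a i ^ 2) σ).2 hP, (cv_eig_perm (fun i => b i ^ 2) τ).2 hQ,
    hPQ⟩

end Pool.Agent.Helper69.Cart
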