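import Pool.Agent.Helper69.Cart.Defs

set_option autoImplicit false

open Matrix Complex Polynomial

namespace Pool.Agent.Helper69.Cart

open Pool.Agent.Helper44.Cart

variable {n : ℕ}

/-! ## B1: the combinatorial lemma -/

lemma cv_sq_le {x y : ℝ} (hx : 0 ≤ x) (_hy : 0 ≤ y) (h : y ^ 2 ≤ x ^ 2) : y ≤ x := by
  nlinarith [sq_nonneg (x - y)]

/-- first case of B1, real numbers, `z > 0` -/
lemma cv_case1_pos {x y z p q : ℝ} (hxy : y ^ 2 ≤ x ^ 2) (hyz : z ^ 2 ≤ y ^ 2) (hpq : p * q < 0)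
    (hz : 0 < z) (h1 : 0 ≤ (x * p + z * q) * (x * q + z * p))
    (h2 : 0 ≤ (y * p + z * q) * (y * q + z * p)) : 0 ≤ (x * p + y * q) * (x * q + y * p) := by
  have hQ : 0 < p ^ 2 + q ^ 2 := by nlinarith [sq_nonneg (p + q)]
  have e1 : (x * p + z * q) * (x * q + z * p) = p * q * (x ^ 2 + z ^ 2) + x * z * (p ^ 2 + q ^ 2) := by
    ring
  have e2 : (y * p + z * q) * (y * q + z * p) = p * q * (y ^ 2 + z ^ 2) + y * z * (p ^ 2 + q ^ 2) := by
    ring
  have e3 : (x * p + y * q) * (x * q + y * p) = p * q * (x ^ 2 + y ^ 2) + x * y * (p ^ 2 + q ^ 2) := by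
    ring
  rw [e1] at h1
  rw [e2] at h2
  rw [e3]
  have hz2 : 0 < z ^ 2 := by positivity
  have hx : 0 < x := by
    by_contra hx
    push Not at hx
    have : x * z * (p ^ 2 + q ^ 2) ≤ 0 := by
      apply mul_nonpos_of_nonpos_of_nonneg (mul_nonpos_of_nonpos_of_nonneg hx hz.le) hQ.le
    have : p * q * (x ^ 2 + z ^ 2) < 0 := mul_neg_of_neg_of_pos hpq (by positivity)
    linarith
  have hy : 0 < y := by
    by_contra hy
    push Not at hy
    have : y * z * (p ^ 2 + q ^ 2) ≤ 0 := by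
      apply mul_nonpos_of_nonpos_of_nonneg (mul_nonpos_of_nonpos_of_nonneg hy hz.le) hQ.le
    have : p * q * (y ^ 2 + z ^ 2) < 0 := mul_neg_of_neg_of_pos hpq (by positivity)
    linarith
  have hxy' : y ≤ x := cv_sq_le hx.le hy.le hxy
  have hyz' : z ≤ y := cv_sq_le hy.le hz.le hyz
  have key : z * (p * q * (x ^ 2 + y ^ 2) + x * y * (p ^ 2 + q ^ 2)) =
      y * (p * q * (x ^ 2 + z ^ 2) + x * z * (p ^ 2 + q ^ 2)) +
        (-(p * q)) * ((y - z) * (x ^ 2 - y * z)) := by ring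
  have h3 : 0 ≤ (y - z) * (x ^ 2 - y * z) := by
    apply mul_nonneg (by linarith)
    nlinarith
  have h4 : 0 ≤ z * (p * q * (x ^ 2 + y ^ 2) + x * y * (p ^ 2 + q ^ 2)) := by
    rw [key]
    have := mul_nonneg hy.le h1
    have := mul_nonneg (by linarith : (0 : ℝ) ≤ -(p * q)) h3
    linarith
  exact nonneg_of_mul_nonneg_right h4 hz

/-- first case of B1 -/
lemma cv_case1 {x y z p q : ℝ} (hxy : y ^ 2 ≤ x ^ 2) (hyz : z ^ 2 ≤ y ^ 2) (hpq : p * q < 0)
    (h1 : 0 ≤ (x * p + z * q) * (x * q + z * p))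
    (h2 : 0 ≤ (y * p + z * q) * (y * q + z * p)) : 0 ≤ (x * p + y * q) * (x * q + y * p) := by
  rcases lt_trichotomy z 0 with hz | hz | hz
  · have := cv_case1_pos (x := -x) (y := -y) (z := -z) (p := p) (q := q) (by simpa using hxy)
      (by simpa using hyz) hpq (by linarith) (by nlinarith) (by nlinarith)
    nlinarith
  · subst hz
    have hx : x = 0 := by
      by_contra hx
      have : 0 < x ^ 2 := by positivity
      nlinarith
    have hy : y = 0 := by
      by_contra hy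
      have : 0 < y ^ 2 := by positivity
      nlinarith
    rw [hx, hy]
    simp
  · exact cv_case1_pos hxy hyz hpq hz h1 h2

/-- second case of B1, `q > 0` -/
lemma cv_case2_pos {x y p r q : ℝ} (hpr : r ^ 2 ≤ p ^ 2) (hrq : q ^ 2 ≤ r ^ 2) (hxy : x * y < 0)
    (hq : 0 < q) (hr : 0 ≤ r * q) (h1 : 0 ≤ (x * p + y * q) * (x * q + y * p)) :
    0 ≤ (x * r + y * q) * (x * q + y * r) := by
  have e1 : (x * p + y * q) * (x * q + y * p) = p * q * (x ^ 2 + y ^ 2) + x * y * (p ^ 2 + q ^ 2) := by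
    ring
  have e3 : (x * r + y * q) * (x * q + y * r) = r * q * (x ^ 2 + y ^ 2) + x * y * (r ^ 2 + q ^ 2) := by
    ring
  rw [e1] at h1
  rw [e3]
  have hq2 : 0 < q ^ 2 := by positivity
  have hA : 0 ≤ x ^ 2 + y ^ 2 := by positivity
  have hp : 0 < p := by
    by_contra hp
    push Not at hp
    have : p * q * (x ^ 2 + y ^ 2) ≤ 0 :=
      mul_nonpos_of_nonpos_of_nonneg (mul_nonpos_of_nonpos_of_nonneg hp hq.le) hA
    have : x * y * (p ^ 2 + q ^ 2) < 0 := mul_neg_of_neg_of_pos hxy (by positivity)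
    linarith
  have hr0 : 0 ≤ r := nonneg_of_mul_nonneg_left hr hq
  have hr' : 0 < r := by
    rcases hr0.eq_or_lt with h | h
    · rw [← h] at hrq
      nlinarith
    · exact h
  have h5 : r ≤ p := cv_sq_le hp.le hr'.le hpr
  have h6 : q ≤ r := cv_sq_le hr'.le hq.le hrq
  have key : p * (r * q * (x ^ 2 + y ^ 2) + x * y * (r ^ 2 + q ^ 2)) =
      r * (p * q * (x ^ 2 + y ^ 2) + x * y * (p ^ 2 + q ^ 2)) +
        (-(x * y)) * ((p - r) * (p * r - q ^ 2)) := by ring
  have h3 : 0 ≤ (p - r) * (p * r - q ^ 2) := by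
    apply mul_nonneg (by linarith)
    nlinarith
  have h4 : 0 ≤ p * (r * q * (x ^ 2 + y ^ 2) + x * y * (r ^ 2 + q ^ 2)) := by
    rw [key]
    have := mul_nonneg hr'.le h1
    have := mul_nonneg (by linarith : (0 : ℝ) ≤ -(x * y)) h3
    linarith
  exact nonneg_of_mul_nonneg_right h4 hp

/-- second case of B1 -/
lemma cv_case2 {x y p r q : ℝ} (hpr : r ^ 2 ≤ p ^ 2) (hrq : q ^ 2 ≤ r ^ 2) (hxy : x * y < 0)
    (hr : 0 ≤ r * q) (h1 : 0 ≤ (x * p + y * q) * (x * q + y * p)) :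
    0 ≤ (x * r + y * q) * (x * q + y * r) := by
  rcases lt_trichotomy q 0 with hq | hq | hq
  · have := cv_case2_pos (x := x) (y := y) (p := -p) (r := -r) (q := -q) (by simpa using hpr)
      (by simpa using hrq) hxy (by linarith) (by nlinarith) (by nlinarith)
    nlinarith
  · subst hq
    have hp : p = 0 := by
      by_contra hp
      have : 0 < p ^ 2 := by positivity
      nlinarith
    have hr : r = 0 := by
      rw [hp] at hpr
      have : r ^ 2 ≤ 0 := by simpa using hpr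
      nlinarith [sq_nonneg r, pow_eq_zero_iff (two_ne_zero) |>.1 (le_antisymm this (sq_nonneg r))]
    rw [hr]
    simp
  · exact cv_case2_pos hpr hrq hxy hq hr h1

/-- B1 when `k ≤ j` -/
lemma cv_linked_aux (a b : Fin n → ℝ) (ha : ∀ x y, x ≤ y → a y ^ 2 ≤ a x ^ 2)
    (hb : ∀ x y, x ≤ y → b y ^ 2 ≤ b x ^ 2) {i k j l : Fin n} (hik : i < k) (hjl : j < l)
    (hkj : k ≤ j) (h : (a i * b j + a k * b l) * (a i * b l + a k * b j) < 0) :
    ∃ i k j l : Fin n, i < k ∧ j < l ∧ i < l ∧ j < k ∧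
      (a i * b j + a k * b l) * (a i * b l + a k * b j) < 0 := by
  have hkl : k < l := lt_of_le_of_lt hkj hjl
  have hil : i < l := hik.trans hkl
  rcases lt_or_ge (b j * b l) 0 with hb0 | hb0
  · by_cases h1 : (a i * b j + a l * b l) * (a i * b l + a l * b j) < 0
    · exact ⟨i, l, j, l, hil, hjl, hil, hjl, h1⟩
    · by_cases h2 : (a k * b j + a l * b l) * (a k * b l + a l * b j) < 0
      · exact ⟨k, l, j, l, hkl, hjl, hkl, hjl, h2⟩
      · push Not at h1 h2
        exact absurd (cv_case1 (ha i k hik.le) (ha k l hkl.le) hb0 h1 h2) (not_le.2 h)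
  · by_cases h1 : (a i * b i + a k * b l) * (a i * b l + a k * b i) < 0
    · exact ⟨i, k, i, l, hik, hil, hil, hik, h1⟩
    · push Not at h1
      have haa : a i * a k < 0 := by
        by_contra hc
        push Not at hc
        have e : (a i * b j + a k * b l) * (a i * b l + a k * b j) =
          b j * b l * (a i ^ 2 + a k ^ 2) + a i * a k * (b j ^ 2 + b l ^ 2) := by ring
        rw [e] at h
        have h3 : 0 ≤ b j * b l * (a i ^ 2 + a k ^ 2) := mul_nonneg hb0 (by positivity)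
        have h4 : 0 ≤ a i * a k * (b j ^ 2 + b l ^ 2) := mul_nonneg hc (by positivity)
        linarith
      exact absurd (cv_case2 (hb i j (hik.le.trans hkj)) (hb j l hjl.le) haa hb0 h1) (not_le.2 h)

/-- B1 -/
lemma cv_linked (a b : Fin n → ℝ) (ha : ∀ x y, x ≤ y → a y ^ 2 ≤ a x ^ 2)
    (hb : ∀ x y, x ≤ y → b y ^ 2 ≤ b x ^ 2) (h : ¬ CondP a b) :
    ∃ i k j l : Fin n, i < k ∧ j < l ∧ i < l ∧ j < k ∧
      (a i * b j + a k * b l) * (a i * b l + a k * b j) < 0 := by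
  unfold CondP at h
  push Not at h
  obtain ⟨i, k, j, l, hik, hjl, h⟩ := h
  -- order the pairs
  obtain ⟨i, k, hik, h⟩ : ∃ i k, i < k ∧ (a i * b j + a k * b l) * (a i * b l + a k * b j) < 0 := by
    rcases lt_or_gt_of_ne hik with h1 | h1
    · exact ⟨i, k, h1, h⟩
    · refine ⟨k, i, h1, ?_⟩
      have e : (a k * b j + a i * b l) * (a k * b l + a i * b j) =
        (a i * b j + a k * b l) * (a i * b l + a k * b j) := by ring
      rw [e]
      exact h
  obtain ⟨j, l, hjl, h⟩ : ∃ j l, j < l ∧ (a i * b j + a k * b l) * (a i * b l + a k * b j) < 0 := by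
    rcases lt_or_gt_of_ne hjl with h1 | h1
    · exact ⟨j, l, h1, h⟩
    · refine ⟨l, j, h1, ?_⟩
      have e : (a i * b l + a k * b j) * (a i * b j + a k * b l) =
        (a i * b j + a k * b l) * (a i * b l + a k * b j) := by ring
      rw [e]
      exact h
  by_cases h1 : i < l
  · by_cases h2 : j < k
    · exact ⟨i, k, j, l, hik, hjl, h1, h2, h⟩
    · push Not at h2
      exact cv_linked_aux a b ha hb hik hjl h2 h
  · push Not at h1
    have h' : (b j * a i + b l * a k) * (b j * a k + b l * a i) < 0 := by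
      have e : (b j * a i + b l * a k) * (b j * a k + b l * a i) =
        (a i * b j + a k * b l) * (a i * b l + a k * b j) := by ring
      rw [e]
      exact h
    obtain ⟨j', l', i', k', q1, q2, q3, q4, q5⟩ := cv_linked_aux b a hb ha hjl hik h1 h'
    refine ⟨i', k', j', l', q2, q1, q4, q3, ?_⟩
    have e : (a i' * b j' + a k' * b l') * (a i' * b l' + a k' * b j') =
        (b j' * a i' + b l' * a k') * (b j' * a k' + b l' * a i') := by ring
    rw [e]
    exact q5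

/-! ## B2: Ky Fan's inequality -/

lemma cv_col_norm {Z : Matrix (Fin n) (Fin n) ℂ} (hZ : IsU Z) (x : Fin n) :
    ∑ k, ‖Z k x‖ ^ 2 = 1 := by
  have h := conj_diag_apply Z (fun _ => 1) x
  have h1 : dg (fun _ : Fin n => (1 : ℝ)) = 1 := by rw [dg_const]; simp
  rw [h1, Matrix.mul_one, hZ.1, Matrix.one_apply_eq] at h
  have h2 : ((1 : ℝ) : ℂ) = ((∑ k, 1 * ‖Z k x‖ ^ 2 : ℝ) : ℂ) := by rw [← h]; simp
  have h3 := Complex.ofReal_injective h2
  simpa using h3.symm

lemma cv_row_norm {Z : Matrix (Fin n) (Fin n) ℂ} (hZ : IsU Z) (k : Fin n) :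
    ∑ x, ‖Z k x‖ ^ 2 = 1 := by
  have h := cv_col_norm hZ.conjTranspose k
  simpa [Matrix.conjTranspose_apply] using h

/-- Ky Fan's inequality for the diagonal entries with index less than `m` -/
lemma cv_kyfan {Z : Matrix (Fin n) (Fin n) ℂ} (hZ : IsU Z) (α : Fin n → ℝ) (m : Fin n)
    (h1 : ∀ x, x < m → α m ≤ α x) (h2 : ∀ x, m ≤ x → α x ≤ α m) :
    ∑ x ∈ Finset.univ.filter (fun x => x < m), ((Zᴴ * dg α * Z) x x).re ≤
      ∑ x ∈ Finset.univ.filter (fun x => x < m), α x := by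
  set T : Finset (Fin n) := Finset.univ.filter (fun x => x < m) with hT
  have e1 : ∑ x ∈ T, ((Zᴴ * dg α * Z) x x).re = ∑ k, α k * ∑ x ∈ T, ‖Z k x‖ ^ 2 := by
    have : ∀ x ∈ T, ((Zᴴ * dg α * Z) x x).re = ∑ k, α k * ‖Z k x‖ ^ 2 := by
      intro x _
      rw [conj_diag_apply, Complex.ofReal_re]
    rw [Finset.sum_congr rfl this, Finset.sum_comm]
    apply Finset.sum_congr rfl
    intro k _
    rw [Finset.mul_sum]
  have e2 : ∑ x ∈ T, α x = ∑ k, α k * (if k ∈ T then 1 else 0) := by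
    simp [Finset.sum_ite_mem]
  have e3 : ∑ k, ∑ x ∈ T, ‖Z k x‖ ^ 2 = ∑ k, (if k ∈ T then (1 : ℝ) else 0) := by
    rw [Finset.sum_comm]
    have : ∀ x ∈ T, ∑ k, ‖Z k x‖ ^ 2 = 1 := fun x _ => cv_col_norm hZ x
    rw [Finset.sum_congr rfl this]
    simp
  have e4 : ∀ k, 0 ≤ ∑ x ∈ T, ‖Z k x‖ ^ 2 := fun k => Finset.sum_nonneg fun x _ => by positivity
  have e5 : ∀ k, ∑ x ∈ T, ‖Z k x‖ ^ 2 ≤ 1 := by
    intro k
    rw [← cv_row_norm hZ k]
    exact Finset.sum_le_sum_of_subset_of_nonneg (Finset.subset_univ _) fun x _ _ => by positivity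
  have e6 : ∀ k, (α k - α m) * ((∑ x ∈ T, ‖Z k x‖ ^ 2) - (if k ∈ T then (1 : ℝ) else 0)) ≤ 0 := by
    intro k
    by_cases hk : k ∈ T
    · rw [if_pos hk]
      have hk' : k < m := by simpa [hT] using hk
      exact mul_nonpos_of_nonneg_of_nonpos (by linarith [h1 k hk']) (by linarith [e5 k])
    · rw [if_neg hk]
      have hk' : m ≤ k := by simpa [hT] using hk
      exact mul_nonpos_of_nonpos_of_nonneg (by linarith [h2 k hk']) (by linarith [e4 k])
  have e7 := Finset.sum_nonpos (s := Finset.univ) fun k _ => e6 k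
  have e8 : ∑ k, (α k - α m) * ((∑ x ∈ T, ‖Z k x‖ ^ 2) - (if k ∈ T then (1 : ℝ) else 0)) =
      (∑ k, α k * ∑ x ∈ T, ‖Z k x‖ ^ 2) - (∑ k, α k * (if k ∈ T then (1 : ℝ) else 0)) -
        α m * ((∑ k, ∑ x ∈ T, ‖Z k x‖ ^ 2) - ∑ k, (if k ∈ T then (1 : ℝ) else 0)) := by
    rw [← Finset.sum_sub_distrib, ← Finset.sum_sub_distrib, Finset.mul_sum,
      ← Finset.sum_sub_distrib]
    apply Finset.sum_congr rfl
    intro k _
    ring
  rw [e8, e3, sub_self, mul_zero, sub_zero] at e7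
  rw [e1, e2]
  linarith

end Pool.Agent.Helper69.Cart
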