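import Pool.Agent.Helper69.Cart.Defs

set_option autoImplicit false

open Matrix Complex

namespace Pool.Agent.Helper69.Cart

open Pool.Agent.Helper44.Cart

variable {n : ℕ}

/-- The interpolating map: `κ = 0` is `A² + B²`, `κ = 1` is `|A + iB|²`. -/
noncomputable def G (κ : ℝ) (A B : Matrix (Fin n) (Fin n) ℂ) : Matrix (Fin n) (Fin n) ℂ :=
  A * A + B * B + ((κ : ℂ) * I) • (A * B - B * A)

/-- The strict form of the condition on the two spectra, with `b > 0`. -/
def SP (a b : Fin n → ℝ) : Prop :=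
  (∀ j, 0 < b j) ∧ ∀ i k j l, 0 < b j * b l * (a i ^ 2 + a k ^ 2) + a i * a k * (b j ^ 2 + b l ^ 2)

lemma SP.exists_rho {a b : Fin n → ℝ} (h : SP a b) (hn : 0 < n) :
    ∃ ρ : ℝ, 0 < ρ ∧ ρ ≤ 1 / 2 ∧ (∀ j l, ρ * (b j ^ 2 + b l ^ 2) ≤ b j * b l) ∧
      ∀ i k, 0 < a i * a k + ρ * (a i ^ 2 + a k ^ 2) := by
  obtain ⟨hb, hq⟩ := h
  have : Nonempty (Fin n) := ⟨⟨0, hn⟩⟩
  obtain ⟨⟨j0, l0⟩, hmin⟩ := Finite.exists_min
    (fun p : Fin n × Fin n => b p.1 * b p.2 / (b p.1 ^ 2 + b p.2 ^ 2))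
  have hD : ∀ j l, 0 < b j ^ 2 + b l ^ 2 := fun j l => by
    have := hb j
    have := hb l
    positivity
  refine ⟨b j0 * b l0 / (b j0 ^ 2 + b l0 ^ 2), ?_, ?_, ?_, ?_⟩
  · exact div_pos (mul_pos (hb _) (hb _)) (hD _ _)
  · rw [div_le_iff₀ (hD _ _)]
    nlinarith [sq_nonneg (b j0 - b l0)]
  · intro j l
    have h1 := hmin (j, l)
    rwa [le_div_iff₀ (hD j l)] at h1
  · intro i k
    have h1 := hq i k j0 l0
    have h2 := hD j0 l0
    have h3 : a i * a k + b j0 * b l0 / (b j0 ^ 2 + b l0 ^ 2) * (a i ^ 2 + a k ^ 2)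
        = (b j0 * b l0 * (a i ^ 2 + a k ^ 2) + a i * a k * (b j0 ^ 2 + b l0 ^ 2))
          / (b j0 ^ 2 + b l0 ^ 2) := by
      field_simp
      ring
    rw [h3]
    exact div_pos h1 h2

lemma SP.a_ne {a b : Fin n → ℝ} (h : SP a b) (i : Fin n) : a i ≠ 0 := by
  intro h0
  have := h.2 i i i i
  rw [h0] at this
  simp at this

lemma trace_mul_self (K : Matrix (Fin n) (Fin n) ℂ) :
    (Matrix.trace (K * K)).re = ∑ i, ∑ j, (K i j * K j i).re := by
  rw [Matrix.trace, Complex.re_sum]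
  apply Finset.sum_congr rfl
  intro i _
  rw [Matrix.diag_apply, Matrix.mul_apply, Complex.re_sum]

lemma trace_conjTranspose_mul_self (K : Matrix (Fin n) (Fin n) ℂ) :
    (Matrix.trace (Kᴴ * K)).re = ∑ i, ∑ j, Complex.normSq (K i j) := by
  rw [Matrix.trace, Complex.re_sum, Finset.sum_comm]
  apply Finset.sum_congr rfl
  intro i _
  rw [Matrix.diag_apply, Matrix.mul_apply, Complex.re_sum]
  apply Finset.sum_congr rfl
  intro j _
  rw [Matrix.conjTranspose_apply]
  have : star (K j i) * K j i = ((Complex.normSq (K j i) : ℝ) : ℂ) := by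
    rw [mul_comm]
    exact Complex.mul_conj (K j i)
  rw [this, Complex.ofReal_re]

lemma two_traces (K : Matrix (Fin n) (Fin n) ℂ) (ρ : ℝ) :
    (Matrix.trace (K * K)).re + 2 * ρ * (Matrix.trace (Kᴴ * K)).re
      = ∑ i, ∑ j, ((K i j * K j i).re + ρ * (Complex.normSq (K i j) + Complex.normSq (K j i))) := by
  rw [trace_mul_self, trace_conjTranspose_mul_self]
  have h1 : ∑ i, ∑ j, Complex.normSq (K j i) = ∑ i, ∑ j, Complex.normSq (K i j) :=
    Finset.sum_comm
  simp only [Finset.sum_add_distrib, mul_add, ← Finset.mul_sum]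
  rw [h1]
  ring

/-- The inequality in an eigenbasis of `B`. -/
lemma trace_ineq {ρ : ℝ} {b : Fin n → ℝ} {V K : Matrix (Fin n) (Fin n) ℂ} (hb : ∀ j, 0 < b j)
    (hρ : ∀ j l, ρ * (b j ^ 2 + b l ^ 2) ≤ b j * b l) (hV : IsU V)
    (h : (V * dg b * Vᴴ) * K + Kᴴ * (V * dg b * Vᴴ) = 0) :
    (Matrix.trace (K * K)).re + 2 * ρ * (Matrix.trace (Kᴴ * K)).re ≤ 0 := by
  set K' := Vᴴ * K * V with hK'
  have hKK : K = V * K' * Vᴴ := by
    have : V * K' * Vᴴ = (V * Vᴴ) * K * (V * Vᴴ) := by rw [hK']; simp only [Matrix.mul_assoc]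
    rw [this, hV.2, Matrix.one_mul, Matrix.mul_one]
  have hKh : Kᴴ = V * K'ᴴ * Vᴴ := by
    rw [hKK]
    simp only [Matrix.conjTranspose_mul, Matrix.conjTranspose_conjTranspose, Matrix.mul_assoc]
  have e1 : Matrix.trace (K * K) = Matrix.trace (K' * K') := by
    rw [hKK, conj_mul_conj hV.1, trace_conj hV.1]
  have e2 : Matrix.trace (Kᴴ * K) = Matrix.trace (K'ᴴ * K') := by
    rw [hKh, hKK, conj_mul_conj hV.1, trace_conj hV.1]
  have h' : dg b * K' + K'ᴴ * dg b = 0 := by
    rw [hKh, hKK, conj_mul_conj hV.1, conj_mul_conj hV.1, ← Matrix.add_mul, ← Matrix.mul_add] at h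
    have h2 := congrArg (fun Z => Vᴴ * Z * V) h
    simp only [Matrix.mul_zero, Matrix.zero_mul] at h2
    have h3 : Vᴴ * (V * (dg b * K' + K'ᴴ * dg b) * Vᴴ) * V
        = (Vᴴ * V) * (dg b * K' + K'ᴴ * dg b) * (Vᴴ * V) := by simp only [Matrix.mul_assoc]
    rw [h3, hV.1, Matrix.one_mul, Matrix.mul_one] at h2
    exact h2
  rw [e1, e2, two_traces]
  apply Finset.sum_nonpos
  intro i _
  apply Finset.sum_nonpos
  intro j _
  have h1 := congrFun (congrFun h' i) j
  rw [Matrix.add_apply, dg, Matrix.diagonal_mul, Matrix.mul_diagonal, Matrix.conjTranspose_apply,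
    Matrix.zero_apply] at h1
  have hre := congrArg Complex.re h1
  have him := congrArg Complex.im h1
  simp only [Complex.add_re, Complex.add_im, Complex.re_ofReal_mul, Complex.im_ofReal_mul,
    Complex.re_mul_ofReal, Complex.im_mul_ofReal, Complex.zero_re, Complex.zero_im,
    Complex.star_def, Complex.conj_re, Complex.conj_im] at hre him
  rw [Complex.mul_re, Complex.normSq_apply, Complex.normSq_apply]
  set u1 := (K' i j).re
  set u2 := (K' i j).im
  set z1 := (K' j i).re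
  set z2 := (K' j i).im
  have hbi := hb i
  have hbj := hb j
  have key : b i ^ 2 * (u1 * z1 - u2 * z2 + ρ * (u1 * u1 + u2 * u2 + (z1 * z1 + z2 * z2)))
      = (z1 ^ 2 + z2 ^ 2) * (ρ * (b i ^ 2 + b j ^ 2) - b i * b j) := by
    have f1 : b i * u1 = -(z1 * b j) := by linarith
    have f2 : b i * u2 = z2 * b j := by linarith
    have f3 : b i ^ 2 * (u1 * z1 - u2 * z2 + ρ * (u1 * u1 + u2 * u2 + (z1 * z1 + z2 * z2)))
      = b i * (b i * u1) * z1 - b i * (b i * u2) * z2 + ρ * ((b i * u1) ^ 2 + (b i * u2) ^ 2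
        + b i ^ 2 * (z1 * z1 + z2 * z2)) := by ring
    rw [f3, f1, f2]
    ring
  have h2 : (z1 ^ 2 + z2 ^ 2) * (ρ * (b i ^ 2 + b j ^ 2) - b i * b j) ≤ 0 :=
    mul_nonpos_of_nonneg_of_nonpos (by positivity) (by linarith [hρ i j])
  rw [← key] at h2
  by_contra hcon
  push Not at hcon
  have := mul_pos (pow_pos hbi 2) hcon
  linarith

/-- The equality in an eigenbasis of `A`, and its consequence. -/
lemma zero_of_ineq {ρ p q : ℝ} {a : Fin n → ℝ} (hρ0 : 0 < ρ) (hρ : ρ ≤ 1 / 2)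
    (ha : ∀ i k, 0 < a i * a k + ρ * (a i ^ 2 + a k ^ 2)) (hp : 0 < p) (hq : 0 ≤ q)
    {S K : Matrix (Fin n) (Fin n) ℂ} (hS : S.IsHermitian)
    (hK : K = (p : ℂ) • (S * dg a) + (q : ℂ) • (dg a * S))
    (h : (Matrix.trace (K * K)).re + 2 * ρ * (Matrix.trace (Kᴴ * K)).re ≤ 0) : S = 0 := by
  have hent : ∀ i j, K i j = (((p * a j + q * a i : ℝ)) : ℂ) * S i j := by
    intro i j
    rw [hK, Matrix.add_apply, Matrix.smul_apply, Matrix.smul_apply, dg, Matrix.diagonal_mul,
      Matrix.mul_diagonal, smul_eq_mul, smul_eq_mul]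
    push_cast
    ring
  have hcoef : ∀ i j, 0 < (p * a j + q * a i) * (p * a i + q * a j)
      + ρ * ((p * a j + q * a i) ^ 2 + (p * a i + q * a j) ^ 2) := by
    intro i j
    have e : (p * a j + q * a i) * (p * a i + q * a j)
      + ρ * ((p * a j + q * a i) ^ 2 + (p * a i + q * a j) ^ 2)
      = (p ^ 2 + q ^ 2) * (a i * a j + ρ * (a i ^ 2 + a j ^ 2))
        + p * q * ((a i ^ 2 + a j ^ 2) + 4 * ρ * (a i * a j)) := by ring
    rw [e]
    have h1 : 0 < (p ^ 2 + q ^ 2) * (a i * a j + ρ * (a i ^ 2 + a j ^ 2)) :=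
      mul_pos (by positivity) (ha i j)
    have h2 : 0 ≤ (a i ^ 2 + a j ^ 2) + 4 * ρ * (a i * a j) := by
      nlinarith [sq_nonneg (a i + a j), sq_nonneg (a i - a j),
        mul_nonneg hρ0.le (sq_nonneg (a i + a j)),
        mul_nonneg (by linarith : 0 ≤ 1 - 2 * ρ) (add_nonneg (sq_nonneg (a i)) (sq_nonneg (a j)))]
    have h3 : 0 ≤ p * q * ((a i ^ 2 + a j ^ 2) + 4 * ρ * (a i * a j)) :=
      mul_nonneg (mul_nonneg hp.le hq) h2
    linarith
  have hterm : ∀ i j, (K i j * K j i).re + ρ * (Complex.normSq (K i j) + Complex.normSq (K j i))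
      = Complex.normSq (S i j) * ((p * a j + q * a i) * (p * a i + q * a j)
      + ρ * ((p * a j + q * a i) ^ 2 + (p * a i + q * a j) ^ 2)) := by
    intro i j
    have h1 : S j i = star (S i j) := (hS.apply j i).symm
    rw [hent i j, hent j i, h1]
    have h2 : ((((p * a j + q * a i : ℝ)) : ℂ) * S i j * ((((p * a i + q * a j : ℝ)) : ℂ) * star (S i j)))
        = (((p * a j + q * a i) * (p * a i + q * a j) * Complex.normSq (S i j) : ℝ) : ℂ) := by
      have h3 : S i j * star (S i j) = ((Complex.normSq (S i j) : ℝ) : ℂ) := Complex.mul_conj (S i j)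
      push_cast
      rw [← h3]
      ring
    rw [h2, Complex.ofReal_re, Complex.normSq_mul, Complex.normSq_mul, Complex.normSq_ofReal,
      Complex.normSq_ofReal]
    have h4 : Complex.normSq (star (S i j)) = Complex.normSq (S i j) := Complex.normSq_conj _
    rw [h4]
    ring
  rw [two_traces] at h
  have hnn : ∀ i j, 0 ≤ (K i j * K j i).re + ρ * (Complex.normSq (K i j) + Complex.normSq (K j i)) := by
    intro i j
    rw [hterm]
    exact mul_nonneg (Complex.normSq_nonneg _) (hcoef i j).le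
  have h0 : ∑ i, ∑ j, ((K i j * K j i).re + ρ * (Complex.normSq (K i j) + Complex.normSq (K j i))) = 0 :=
    le_antisymm h (Finset.sum_nonneg fun i _ => Finset.sum_nonneg fun j _ => hnn i j)
  ext i j
  have h1 := (Finset.sum_eq_zero_iff_of_nonneg
    (fun i _ => Finset.sum_nonneg fun j _ => hnn i j)).1 h0 i (Finset.mem_univ i)
  have h2 := (Finset.sum_eq_zero_iff_of_nonneg (fun j _ => hnn i j)).1 h1 j (Finset.mem_univ j)
  rw [hterm] at h2
  rcases mul_eq_zero.1 h2 with h3 | h3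
  · rw [Matrix.zero_apply]
    exact Complex.normSq_eq_zero.1 h3
  · exact absurd h3 (hcoef i j).ne'

/-- The identity expressing unitary invariance. -/
lemma momentG (κ : ℝ) (A B M : Matrix (Fin n) (Fin n) ℂ) :
    (A * (A * M + M * A + ((κ : ℂ) * I) • (B * M - M * B))
      - (A * M + M * A + ((κ : ℂ) * I) • (B * M - M * B)) * A)
    + (B * (B * M + M * B + ((κ : ℂ) * I) • (M * A - A * M))
      - (B * M + M * B + ((κ : ℂ) * I) • (M * A - A * M)) * B)
    = G κ A B * M - M * G κ A B := by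
  unfold G
  simp only [mul_add, add_mul, mul_sub, sub_mul, smul_add, smul_sub, mul_smul_comm, smul_mul_assoc,
      smul_smul, mul_assoc]
  abel

lemma herm_comb (κ : ℝ) {A B M : Matrix (Fin n) (Fin n) ℂ} (hA : A.IsHermitian)
    (hB : B.IsHermitian) (hM : M.IsHermitian) :
    (A * M + M * A + ((κ : ℂ) * I) • (B * M - M * B)).IsHermitian := by
  rw [Matrix.IsHermitian]
  simp only [Matrix.conjTranspose_add, Matrix.conjTranspose_mul, Matrix.conjTranspose_smul,
      Matrix.conjTranspose_sub, hA.eq, hB.eq, hM.eq]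
  have h1 : star ((κ : ℂ) * I) = -((κ : ℂ) * I) := by simp
  rw [h1]
  module

lemma herm_diag_real {X : Matrix (Fin n) (Fin n) ℂ} (hX : X.IsHermitian)
    (hoff : ∀ j k, j ≠ k → X j k = 0) : X = dg (fun j => (X j j).re) := by
  ext j k
  by_cases hjk : j = k
  · subst hjk
    have h1 : X j j = ((X j j).re : ℂ) := by
      have := hX.apply j j
      exact (Complex.conj_eq_iff_real.1 this).elim (fun r hr => by rw [hr]; simp)
    rw [dg, Matrix.diagonal_apply_eq]
    exact h1
  · rw [hoff j k hjk, dg, Matrix.diagonal_apply_ne _ hjk]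

/-- **Critical points**: under the strict condition a critical matrix commutes with `A` and `B`. -/
theorem critG {κ : ℝ} (hκ0 : 0 ≤ κ) (hκ1 : κ ≤ 1) {a b : Fin n → ℝ} (hSP : SP a b)
    (hainj : Function.Injective a) (hbinj : Function.Injective b)
    {V M A B : Matrix (Fin n) (Fin n) ℂ} (hV : IsU V)
    (hM : M.IsHermitian) (hA : A = dg a) (hB : B = V * dg b * Vᴴ)
    (hF : G κ A B * M = M * G κ A B)
    (hN : B * (B * M + M * B + ((κ : ℂ) * I) • (M * A - A * M))
      = (B * M + M * B + ((κ : ℂ) * I) • (M * A - A * M)) * B) :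
    A * M = M * A ∧ B * M = M * B := by
  rcases Nat.eq_zero_or_pos n with hn | hn
  · subst hn
    exact ⟨by ext i; exact i.elim0, by ext i; exact i.elim0⟩
  obtain ⟨ρ, hρ0, hρ2, hρb, hρa⟩ := hSP.exists_rho hn
  have hb := hSP.1
  have hAh : A.IsHermitian := by rw [hA]; exact dg_isHermitian a
  have hBh : B.IsHermitian := by
    rw [hB]; exact Matrix.isHermitian_mul_mul_conjTranspose V (dg_isHermitian b)
  set C1 := A * M + M * A + ((κ : ℂ) * I) • (B * M - M * B) with hC1
  set C2 := B * M + M * B + ((κ : ℂ) * I) • (M * A - A * M) with hC2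
  have hC1h : C1.IsHermitian := herm_comb κ hAh hBh hM
  have hC2h : C2.IsHermitian := by
    rw [Matrix.IsHermitian, hC2]
    simp only [Matrix.conjTranspose_add, Matrix.conjTranspose_mul, Matrix.conjTranspose_smul,
      Matrix.conjTranspose_sub, hAh.eq, hBh.eq, hM.eq]
    have h1 : star ((κ : ℂ) * I) = -((κ : ℂ) * I) := by simp
    rw [h1]
    module
  have hAC : A * C1 = C1 * A := by
    have h := momentG κ A B M
    rw [← hC1, ← hC2, hN, sub_self, add_zero, hF, sub_self] at h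
    exact sub_eq_zero.1 h
  -- the diagonal form of `C1`
  have hC1d : C1 = dg (fun j => (C1 j j).re) := herm_diag_real hC1h
    (fun j k hjk => offdiag_zero_of_commute hainj (by rw [← hA]; exact hAC) hjk)
  set Φ : Matrix (Fin n) (Fin n) ℂ := dg (fun j => (C1 j j).re / (2 * a j)) with hΦ
  have hΦh : Φ.IsHermitian := dg_isHermitian _
  have hΦA : Φ * A = A * Φ := by
    rw [hΦ, hA, dg_mul_dg, dg_mul_dg]
    congr 1
    ext i
    ring
  have hΦ2 : Φ * A + A * Φ = C1 := by
    rw [hC1d, hΦ, hA, dg_mul_dg, dg_mul_dg, dg_add_dg]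
    congr 1
    ext i
    have := hSP.a_ne i
    have e : (C1 i i).re / (2 * a i) * a i + a i * ((C1 i i).re / (2 * a i)) = (C1 i i).re := by
      field_simp
      ring
    rw [e]
  -- the diagonal form of `C2`
  set C2' := Vᴴ * C2 * V with hC2'
  have hC2'h : C2'.IsHermitian := by
    rw [hC2']
    exact Matrix.isHermitian_conjTranspose_mul_mul V hC2h
  have hC2'd : C2' = dg (fun j => (C2' j j).re) := herm_diag_real hC2'h
    (fun j k hjk => offdiag_zero_of_commute hbinj (unitary_conj_commute hV.1 hB hN) hjk)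
  have hC2V : C2 = V * C2' * Vᴴ := by
    have : V * C2' * Vᴴ = (V * Vᴴ) * C2 * (V * Vᴴ) := by rw [hC2']; simp only [Matrix.mul_assoc]
    rw [this, hV.2, Matrix.one_mul, Matrix.mul_one]
  set Γ : Matrix (Fin n) (Fin n) ℂ := V * dg (fun j => (C2' j j).re / (2 * b j)) * Vᴴ with hΓ
  have hΓh : Γ.IsHermitian := Matrix.isHermitian_mul_mul_conjTranspose V (dg_isHermitian _)
  have hΓB : Γ * B = B * Γ := by
    rw [hΓ, hB, conj_mul_conj hV.1, conj_mul_conj hV.1, dg_mul_dg, dg_mul_dg]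
    congr 3
    ext i
    ring
  have hΓ2 : Γ * B + B * Γ = C2 := by
    rw [hC2V, hΓ, hB, conj_mul_conj hV.1, conj_mul_conj hV.1, ← Matrix.add_mul, ← Matrix.mul_add,
      dg_mul_dg, dg_mul_dg, dg_add_dg]
    congr 2
    rw [hC2'd]
    congr 1
    ext i
    have := (hb i).ne'
    have e : (C2' i i).re / (2 * b i) * b i + b i * ((C2' i i).re / (2 * b i)) = (C2' i i).re := by
      field_simp
      ring
    rw [← hC2'd, e]
  set S := M - Φ with hS
  set T := M - Γ with hT
  have hSh : S.IsHermitian := hM.sub hΦh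
  have hTh : T.IsHermitian := hM.sub hΓh
  have r1 : S * A + A * S = ((κ : ℂ) * I) • (T * B - B * T) := by
    have e1 : T * B - B * T = M * B - B * M := by
      rw [hT, sub_mul, mul_sub, hΓB]
      abel
    have e2 : S * A + A * S = (M * A + A * M) - (Φ * A + A * Φ) := by
      rw [hS, sub_mul, mul_sub]
      abel
    rw [e1, e2, hΦ2, hC1, smul_sub, smul_sub]
    abel
  have r2 : T * B + B * T = -(((κ : ℂ) * I) • (S * A - A * S)) := by
    have e1 : S * A - A * S = M * A - A * M := by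
      rw [hS, sub_mul, mul_sub, hΦA]
      abel
    have e2 : T * B + B * T = (M * B + B * M) - (Γ * B + B * Γ) := by
      rw [hT, sub_mul, mul_sub]
      abel
    rw [e1, e2, hΓ2, hC2]
    abel
  set K : Matrix (Fin n) (Fin n) ℂ :=
    ((1 + κ ^ 2 : ℝ) : ℂ) • (S * A) + ((1 - κ ^ 2 : ℝ) : ℂ) • (A * S) with hK
  have hKT : K = (2 * (κ : ℂ) * I) • (T * B) := by
    have e1 : (2 * (κ : ℂ) * I) • (T * B)
        = ((κ : ℂ) * I) • (T * B + B * T) + ((κ : ℂ) * I) • (T * B - B * T) := by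
      module
    have hII : (κ : ℂ) * I * ((κ : ℂ) * I) = -((κ : ℂ) ^ 2) := by
      have : (κ : ℂ) * I * ((κ : ℂ) * I) = (κ : ℂ) ^ 2 * (I * I) := by ring
      rw [this, I_mul_I]
      ring
    rw [e1, ← r1, r2, smul_neg, smul_smul, hII, hK]
    push_cast
    module
  have hKh : Kᴴ = -((2 * (κ : ℂ) * I) • (B * T)) := by
    rw [hKT, Matrix.conjTranspose_smul, Matrix.conjTranspose_mul, hTh.eq, hBh.eq]
    have h1 : star (2 * (κ : ℂ) * I) = -(2 * (κ : ℂ) * I) := by simp
    rw [h1, neg_smul]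
  have hBK : (V * dg b * Vᴴ) * K + Kᴴ * (V * dg b * Vᴴ) = 0 := by
    rw [← hB, hKh, hKT, Matrix.mul_smul, Matrix.neg_mul, Matrix.smul_mul, ← Matrix.mul_assoc]
    simp
  have hS0 : S = 0 := by
    apply zero_of_ineq (ρ := ρ) (p := 1 + κ ^ 2) (q := 1 - κ ^ 2) (a := a) (K := K) hρ0 hρ2 hρa
      (by positivity) (by nlinarith) hSh
    · rw [hK, hA]
    · exact trace_ineq hb hρb hV hBK
  have hT0 : T = 0 := by
    rw [hS0] at r2
    simp only [Matrix.zero_mul, Matrix.mul_zero, sub_self, smul_zero, neg_zero] at r2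
    set T' := Vᴴ * T * V with hT'
    have hTV : T = V * T' * Vᴴ := by
      have : V * T' * Vᴴ = (V * Vᴴ) * T * (V * Vᴴ) := by rw [hT']; simp only [Matrix.mul_assoc]
      rw [this, hV.2, Matrix.one_mul, Matrix.mul_one]
    have h' : T' * dg b + dg b * T' = 0 := by
      rw [hTV, hB, conj_mul_conj hV.1, conj_mul_conj hV.1, ← Matrix.add_mul, ← Matrix.mul_add] at r2
      have h2 := congrArg (fun Z => Vᴴ * Z * V) r2
      simp only [Matrix.mul_zero, Matrix.zero_mul] at h2
      have h3 : Vᴴ * (V * (T' * dg b + dg b * T') * Vᴴ) * V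
          = (Vᴴ * V) * (T' * dg b + dg b * T') * (Vᴴ * V) := by simp only [Matrix.mul_assoc]
      rw [h3, hV.1, Matrix.one_mul, Matrix.mul_one] at h2
      exact h2
    have hT'0 : T' = 0 := by
      ext i j
      have h1 := congrFun (congrFun h' i) j
      rw [Matrix.add_apply, dg, Matrix.mul_diagonal, Matrix.diagonal_mul, Matrix.zero_apply] at h1
      have h2 : T' i j * ((b j + b i : ℝ) : ℂ) = 0 := by
        push_cast
        linear_combination h1
      rcases mul_eq_zero.1 h2 with h3 | h3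
      · exact h3
      · exfalso
        have := hb i
        have := hb j
        have h4 : b j + b i = 0 := by exact_mod_cast h3
        linarith
    rw [hTV, hT'0, Matrix.mul_zero, Matrix.zero_mul]
  constructor
  · have : M = Φ := sub_eq_zero.1 hS0
    rw [this, hΦA]
  · have : M = Γ := sub_eq_zero.1 hT0
    rw [this, hΓB]

end Pool.Agent.Helper69.Cart
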