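import Pool.Agent.Helper44.Cart.Transfer

set_option autoImplicit false

open Matrix Complex Polynomial

namespace Pool.Agent.Helper69.Cart

open Pool.Agent.Helper44.Cart

variable {n : ℕ}

/-- `A` is Hermitian and its eigenvalues, with multiplicity, are `a 0, …, a (n-1)`. -/
def HasEigenvalues (A : Matrix (Fin n) (Fin n) ℂ) (a : Fin n → ℝ) : Prop :=
  A.IsHermitian ∧ A.charpoly = ∏ i, (X - C (a i : ℂ))

/-- The singular values of `T`, with multiplicity, are `s 0, …, s (n-1)`: they are nonnegative and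
their squares are the eigenvalues of `Tᴴ * T`. -/
def HasSingularValues (T : Matrix (Fin n) (Fin n) ℂ) (s : Fin n → ℝ) : Prop :=
  (∀ i, 0 ≤ s i) ∧ HasEigenvalues (Tᴴ * T) (fun i => s i ^ 2)

/-- The triple `(a, b, s)` is realizable: there are Hermitian `A`, `B` with eigenvalues `a`, `b`
such that `A + iB` has singular values `s`. -/
def Realizable (a b s : Fin n → ℝ) : Prop :=
  ∃ A B : Matrix (Fin n) (Fin n) ℂ, HasEigenvalues A a ∧ HasEigenvalues B b ∧
    HasSingularValues (A + I • B) s

/-- The triple `(α, β, γ)` is a solution of the sum problem for Hermitian matrices: there are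
Hermitian `P`, `Q` with eigenvalues `α`, `β` such that `P + Q` has eigenvalues `γ`. -/
def SumRealizable (α β γ : Fin n → ℝ) : Prop :=
  ∃ P Q : Matrix (Fin n) (Fin n) ℂ, HasEigenvalues P α ∧ HasEigenvalues Q β ∧
    HasEigenvalues (P + Q) γ

/-- The condition on the two spectra. -/
def CondP (a b : Fin n → ℝ) : Prop :=
  ∀ i k j l : Fin n, i ≠ k → j ≠ l → 0 ≤ (a i * b j + a k * b l) * (a i * b l + a k * b j)

lemma hasEigenvalues_iff (A : Matrix (Fin n) (Fin n) ℂ) (a : Fin n → ℝ) :
    HasEigenvalues A a ↔ ∃ V : Matrix (Fin n) (Fin n) ℂ, IsU V ∧ A = V * dg a * Vᴴ := by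
  have hcp : ∀ (V : Matrix (Fin n) (Fin n) ℂ) (c : Fin n → ℝ), IsU V →
      (V * dg c * Vᴴ).charpoly = ∏ i, (X - C (c i : ℂ)) := by
    intro V c hV
    rw [Matrix.charpoly_mul_comm, ← Matrix.mul_assoc, hV.1, Matrix.one_mul, dg,
      Matrix.charpoly_diagonal]
  constructor
  · rintro ⟨hA, hc⟩
    obtain ⟨V, hV, hAV⟩ := exists_diag hA
    have h1 : ∏ i, (X - C (a i : ℂ)) = ∏ i, (X - C ((hA.eigenvalues i : ℝ) : ℂ)) := by
      rw [← hc, ← hcp V _ hV, ← hAV]
    have h2 : (∏ i, (X - C (hA.eigenvalues i))) = ∏ i, (X - C (a i)) := by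
      apply Polynomial.map_injective (algebraMap ℝ ℂ) (algebraMap ℝ ℂ).injective
      rw [Polynomial.map_prod, Polynomial.map_prod]
      simpa using h1.symm
    have h3 : (Finset.univ : Finset (Fin n)).val.map hA.eigenvalues
        = (Finset.univ : Finset (Fin n)).val.map a := by
      have h4 := congrArg Polynomial.roots h2
      have h5 : ∀ f : Fin n → ℝ, (Finset.univ : Finset (Fin n)).val.map (fun i => X - C (f i))
          = ((Finset.univ : Finset (Fin n)).val.map f).map (fun t => X - C t) := by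
        intro f
        rw [Multiset.map_map]
        rfl
      rwa [Finset.prod_eq_multiset_prod, Finset.prod_eq_multiset_prod, h5, h5,
        Polynomial.roots_multiset_prod_X_sub_C, Polynomial.roots_multiset_prod_X_sub_C] at h4
    obtain ⟨σ, hσ⟩ := exists_perm_of_map_eq h3
    obtain ⟨W, hW, hW2⟩ := conj_perm hV hA.eigenvalues σ
    refine ⟨W, hW, ?_⟩
    rw [hσ] at hW2
    rw [← hW2]
    exact hAV
  · rintro ⟨V, hV, rfl⟩
    exact ⟨Matrix.isHermitian_mul_mul_conjTranspose V (dg_isHermitian a), hcp V a hV⟩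

end Pool.Agent.Helper69.Cart
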