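import Pool.Agent.Helper69.Cart.Trans

set_option autoImplicit false

open Matrix Complex Topology Filter

namespace Pool.Agent.Helper69.Cart

open Pool.Agent.Helper44.Cart

variable {n : ℕ}

/-! ### Good pairs of spectra -/

lemma tr_scalar {a b : Fin n → ℝ} {c : ℝ} (hc : ∀ j, b j = c) : Tr a b := by
  intro κ0 _ κ1 _ γ h
  obtain ⟨V, W, hV, hW, hF⟩ := h
  refine ⟨V, W, hV, hW, ?_⟩
  have hb : V * dg b * Vᴴ = (c : ℂ) • (1 : Matrix (Fin n) (Fin n) ℂ) := by
    have h1 : dg b = (c : ℂ) • (1 : Matrix (Fin n) (Fin n) ℂ) := by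
      rw [← dg_const]
      congr 1
      funext j
      exact hc j
    rw [h1, Matrix.mul_smul, Matrix.mul_one, Matrix.smul_mul, hV.2]
  rw [← hF, hb]
  unfold G
  simp

lemma tendsto_inv_nat : Tendsto (fun m : ℕ => 1 / ((m : ℝ) + 1)) atTop (𝓝 0) :=
  tendsto_one_div_add_atTop_nhds_zero_nat

lemma inv_nat_pos (m : ℕ) : 0 < 1 / ((m : ℝ) + 1) := by positivity

lemma tendsto_add_inv (b : Fin n → ℝ) :
    Tendsto (fun m : ℕ => fun j => b j + 1 / ((m : ℝ) + 1)) atTop (𝓝 b) := by
  rw [tendsto_pi_nhds]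
  intro j
  have := (tendsto_const_nhds (x := b j)).add tendsto_inv_nat
  simpa using this

lemma tr_of_nozero {a b : Fin n → ℝ} (hb : ∀ j, 0 < b j) (hP : CondP a b)
    (h0 : ∀ i k, a i + a k ≠ 0) : Tr a b := by
  apply tr_closed (am := fun _ => a) (bm := fun (m : ℕ) j => b j + 1 / ((m : ℝ) + 1))
    tendsto_const_nhds (tendsto_add_inv b)
  apply Eventually.of_forall
  intro m
  apply tr_of_SP
  have ht := inv_nat_pos m
  set t := 1 / ((m : ℝ) + 1) with htdef
  refine ⟨fun j => by have := hb j; show 0 < b j + t; linarith, ?_⟩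
  intro i k j l
  show 0 < (b j + t) * (b l + t) * (a i ^ 2 + a k ^ 2) + a i * a k * ((b j + t) ^ 2 + (b l + t) ^ 2)
  have e : (b j + t) * (b l + t) * (a i ^ 2 + a k ^ 2) + a i * a k * ((b j + t) ^ 2 + (b l + t) ^ 2)
    = (b j * b l * (a i ^ 2 + a k ^ 2) + a i * a k * (b j ^ 2 + b l ^ 2))
      + (t * (b j + b l) + t ^ 2) * (a i + a k) ^ 2 := by ring
  have hg : 0 ≤ b j * b l * (a i ^ 2 + a k ^ 2) + a i * a k * (b j ^ 2 + b l ^ 2) := by
    by_cases hik : i = k
    · subst hik
      have : b j * b l * (a i ^ 2 + a i ^ 2) + a i * a i * (b j ^ 2 + b l ^ 2)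
        = (a i * (b j + b l)) ^ 2 := by ring
      rw [this]; positivity
    · by_cases hjl : j = l
      · subst hjl
        have : b j * b j * (a i ^ 2 + a k ^ 2) + a i * a k * (b j ^ 2 + b j ^ 2)
          = (b j * (a i + a k)) ^ 2 := by ring
        rw [this]; positivity
      · have h1 := hP i k j l hik hjl
        have : (a i * b j + a k * b l) * (a i * b l + a k * b j)
          = b j * b l * (a i ^ 2 + a k ^ 2) + a i * a k * (b j ^ 2 + b l ^ 2) := by ring
        rwa [this] at h1
  have hpos : 0 < (t * (b j + b l) + t ^ 2) * (a i + a k) ^ 2 := by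
    have h1 := hb j
    have h2 := hb l
    have h3 : 0 < (a i + a k) ^ 2 := by
      have := h0 i k
      positivity
    positivity
  rw [e]
  linarith

theorem tr_of_pos {a b : Fin n → ℝ} (hb : ∀ j, 0 < b j) (hP : CondP a b) : Tr a b := by
  by_cases hsc : ∀ j l, b j = b l
  · rcases Nat.eq_zero_or_pos n with hn | hn
    · subst hn
      exact tr_scalar (c := 0) (fun j => j.elim0)
    · exact tr_scalar (c := b ⟨0, hn⟩) (fun j => hsc _ _)
  push Not at hsc
  obtain ⟨j0, l0, hjl⟩ := hsc
  have hjl0 : j0 ≠ l0 := fun h => hjl (h ▸ rfl)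
  have claim : ∀ i k, a i ≠ 0 → a k ≠ 0 → a i + a k ≠ 0 := by
    intro i k hi _ hs
    by_cases hik : i = k
    · subst hik
      apply hi
      linarith
    · have h1 := hP i k j0 l0 hik hjl0
      have h2 : a k = -a i := by linarith
      have h3 : (a i * b j0 + a k * b l0) * (a i * b l0 + a k * b j0)
        = -((a i * (b j0 - b l0)) ^ 2) := by rw [h2]; ring
      rw [h3] at h1
      have h4 : a i * (b j0 - b l0) ≠ 0 := mul_ne_zero hi (sub_ne_zero.2 hjl)
      have h5 : 0 < (a i * (b j0 - b l0)) ^ 2 := by positivity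
      linarith
  set am : ℕ → Fin n → ℝ := fun m i => if a i = 0 then 1 / ((m : ℝ) + 1) else a i with ham
  have hlim : ∀ i, Tendsto (fun m => am m i) atTop (𝓝 (a i)) := by
    intro i
    by_cases hi : a i = 0
    · have : (fun m => am m i) = fun m : ℕ => 1 / ((m : ℝ) + 1) := by
        funext m; simp [ham, hi]
      rw [this, hi]
      exact tendsto_inv_nat
    · have : (fun m => am m i) = fun _ : ℕ => a i := by
        funext m; simp [ham, hi]
      rw [this]
      exact tendsto_const_nhds
  have hpos : ∀ m i, a i = 0 → 0 < am m i := by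
    intro m i hi
    have : am m i = 1 / ((m : ℝ) + 1) := by simp [ham, hi]
    rw [this]
    exact inv_nat_pos m
  have heq : ∀ m i, a i ≠ 0 → am m i = a i := by
    intro m i hi
    simp [ham, hi]
  apply tr_closed (am := am) (bm := fun _ => b) (tendsto_pi_nhds.2 hlim) tendsto_const_nhds
  have ev1 : ∀ᶠ m in atTop, ∀ i k, am m i + am m k ≠ 0 := by
    rw [eventually_all]; intro i
    rw [eventually_all]; intro k
    by_cases hs : a i + a k = 0
    · by_cases hi : a i = 0
      · by_cases hk : a k = 0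
        · apply Eventually.of_forall
          intro m
          have := hpos m i hi
          have := hpos m k hk
          intro h
          linarith
        · exact absurd (by linarith : a k = 0) hk
      · have hk : a k ≠ 0 := fun h => hi (by linarith)
        exact absurd hs (claim i k hi hk)
    · exact ((hlim i).add (hlim k)).eventually_ne hs
  have ev2 : ∀ᶠ m in atTop, CondP (am m) b := by
    have : ∀ᶠ m in atTop, ∀ i k j l : Fin n, i ≠ k → j ≠ l →
        0 ≤ (am m i * b j + am m k * b l) * (am m i * b l + am m k * b j) := by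
      rw [eventually_all]; intro i
      rw [eventually_all]; intro k
      rw [eventually_all]; intro j
      rw [eventually_all]; intro l
      have hbj := hb j
      have hbl := hb l
      by_cases hi : a i = 0
      · by_cases hk : a k = 0
        · apply Eventually.of_forall
          intro m _ _
          have := hpos m i hi
          have := hpos m k hk
          positivity
        · have h1 : Tendsto (fun m => (am m i * b j + am m k * b l) * (am m i * b l + am m k * b j))
              atTop (𝓝 ((a i * b j + a k * b l) * (a i * b l + a k * b j))) :=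
            (((hlim i).mul_const _).add ((hlim k).mul_const _)).mul
              (((hlim i).mul_const _).add ((hlim k).mul_const _))
          have h2 : 0 < (a i * b j + a k * b l) * (a i * b l + a k * b j) := by
            rw [hi]
            have : (0 * b j + a k * b l) * (0 * b l + a k * b j) = a k ^ 2 * (b l * b j) := by ring
            rw [this]
            positivity
          filter_upwards [h1.eventually (lt_mem_nhds h2)] with m hm _ _
          exact hm.le
      · by_cases hk : a k = 0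
        · have h1 : Tendsto (fun m => (am m i * b j + am m k * b l) * (am m i * b l + am m k * b j))
              atTop (𝓝 ((a i * b j + a k * b l) * (a i * b l + a k * b j))) :=
            (((hlim i).mul_const _).add ((hlim k).mul_const _)).mul
              (((hlim i).mul_const _).add ((hlim k).mul_const _))
          have h2 : 0 < (a i * b j + a k * b l) * (a i * b l + a k * b j) := by
            rw [hk]
            have : (a i * b j + 0 * b l) * (a i * b l + 0 * b j) = a i ^ 2 * (b l * b j) := by ring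
            rw [this]
            positivity
          filter_upwards [h1.eventually (lt_mem_nhds h2)] with m hm _ _
          exact hm.le
        · apply Eventually.of_forall
          intro m h1 h2
          rw [heq m i hi, heq m k hk]
          exact hP i k j l h1 h2
    filter_upwards [this] with m hm
    exact fun i k j l => hm i k j l
  filter_upwards [ev1, ev2] with m h1 h2
  exact tr_of_nozero hb h2 h1

theorem tr_of_nonneg {a b : Fin n → ℝ} (ha : ∀ i, 0 ≤ a i) (hb : ∀ j, 0 ≤ b j) : Tr a b := by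
  apply tr_closed (am := fun (m : ℕ) j => a j + 1 / ((m : ℝ) + 1))
    (bm := fun (m : ℕ) j => b j + 1 / ((m : ℝ) + 1)) (tendsto_add_inv a) (tendsto_add_inv b)
  apply Eventually.of_forall
  intro m
  apply tr_of_SP
  have ht := inv_nat_pos m
  set t := 1 / ((m : ℝ) + 1) with htdef
  refine ⟨fun j => by have := hb j; show 0 < b j + t; linarith, ?_⟩
  intro i k j l
  show 0 < (b j + t) * (b l + t) * ((a i + t) ^ 2 + (a k + t) ^ 2)
    + (a i + t) * (a k + t) * ((b j + t) ^ 2 + (b l + t) ^ 2)
  have := ha i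
  have := ha k
  have := hb j
  have := hb l
  positivity

/-! ### Translation to realizability -/

lemma G_one (A B : Matrix (Fin n) (Fin n) ℂ) (hA : A.IsHermitian) (hB : B.IsHermitian) :
    G 1 A B = (A + I • B)ᴴ * (A + I • B) := by
  unfold G
  rw [Matrix.conjTranspose_add, Matrix.conjTranspose_smul, hA.eq, hB.eq]
  have h1 : star I = -I := by simp
  have e : ∀ Y : Matrix (Fin n) (Fin n) ℂ, I • (-I) • Y = Y := by
    intro Y
    rw [smul_smul, mul_neg, I_mul_I, neg_neg, one_smul]
  rw [h1]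
  simp only [mul_add, add_mul, mul_smul_comm, smul_mul_assoc, smul_add, e, smul_sub,
    ofReal_one, one_mul]
  module

lemma G_zero (A B : Matrix (Fin n) (Fin n) ℂ) : G 0 A B = A * A + B * B := by
  unfold G
  simp

lemma dg_sq (a : Fin n → ℝ) : dg a * dg a = dg (fun i => a i ^ 2) := by
  rw [dg_mul_dg]
  congr 1
  funext i
  ring

lemma conj_sq {V : Matrix (Fin n) (Fin n) ℂ} (hV : IsU V) (b : Fin n → ℝ) :
    (V * dg b * Vᴴ) * (V * dg b * Vᴴ) = V * dg (fun i => b i ^ 2) * Vᴴ := by
  rw [conj_mul_conj hV.1, dg_sq]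

lemma unconj {U : Matrix (Fin n) (Fin n) ℂ} (hU : IsU U) (X : Matrix (Fin n) (Fin n) ℂ) :
    Uᴴ * (U * X * Uᴴ) * U = X := by
  have : Uᴴ * (U * X * Uᴴ) * U = (Uᴴ * U) * X * (Uᴴ * U) := by
    simp only [Matrix.mul_assoc]
  rw [this, hU.1, Matrix.one_mul, Matrix.mul_one]

lemma reconj (U V X : Matrix (Fin n) (Fin n) ℂ) :
    Uᴴ * (V * X * Vᴴ) * U = (Uᴴ * V) * X * (Uᴴ * V)ᴴ := by
  rw [Matrix.conjTranspose_mul, Matrix.conjTranspose_conjTranspose]
  simp only [Matrix.mul_assoc]

lemma sum_iff_solG (a b γ : Fin n → ℝ) :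
    SumRealizable (fun i => a i ^ 2) (fun i => b i ^ 2) γ ↔ SolG 0 a b γ := by
  constructor
  · rintro ⟨P, Q, hP, hQ, hPQ⟩
    obtain ⟨U, hU, rfl⟩ := (hasEigenvalues_iff _ _).1 hP
    obtain ⟨V, hV, rfl⟩ := (hasEigenvalues_iff _ _).1 hQ
    obtain ⟨W, hW, hW2⟩ := (hasEigenvalues_iff _ _).1 hPQ
    refine ⟨Uᴴ * V, Uᴴ * W, hU.conjTranspose.mul hV, hU.conjTranspose.mul hW, ?_⟩
    rw [G_zero, dg_sq, conj_sq (hU.conjTranspose.mul hV), ← reconj, ← reconj, ← hW2,
      Matrix.mul_add, Matrix.add_mul, unconj hU]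
  · rintro ⟨V, W, hV, hW, hF⟩
    rw [G_zero, dg_sq, conj_sq hV] at hF
    refine ⟨dg (fun i => a i ^ 2), V * dg (fun i => b i ^ 2) * Vᴴ, ?_, ?_, ?_⟩
    · rw [hasEigenvalues_iff]
      exact ⟨1, isU_one, by simp⟩
    · rw [hasEigenvalues_iff]
      exact ⟨V, hV, rfl⟩
    · rw [hasEigenvalues_iff]
      exact ⟨W, hW, hF⟩

lemma G_conj {W X Y : Matrix (Fin n) (Fin n) ℂ} (hW : Wᴴ * W = 1) (κ : ℝ) :
    G κ (W * X * Wᴴ) (W * Y * Wᴴ) = W * G κ X Y * Wᴴ := by
  unfold G
  rw [conj_mul_conj hW, conj_mul_conj hW, conj_mul_conj hW, conj_mul_conj hW]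
  simp only [Matrix.mul_add, Matrix.add_mul, Matrix.mul_smul, Matrix.smul_mul, Matrix.mul_sub,
    Matrix.sub_mul]

lemma realizable_iff_solG (a b s : Fin n → ℝ) :
    Realizable a b s ↔ (∀ i, 0 ≤ s i) ∧ SolG 1 a b (fun i => s i ^ 2) := by
  constructor
  · rintro ⟨A, B, hA, hB, hs, hS⟩
    have hAh := hA.1
    have hBh := hB.1
    obtain ⟨U, hU, hAU⟩ := (hasEigenvalues_iff _ _).1 hA
    obtain ⟨V, hV, hBV⟩ := (hasEigenvalues_iff _ _).1 hB
    obtain ⟨W, hW, hW2⟩ := (hasEigenvalues_iff _ _).1 hS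
    refine ⟨hs, Uᴴ * V, Uᴴ * W, hU.conjTranspose.mul hV, hU.conjTranspose.mul hW, ?_⟩
    rw [← G_one A B hAh hBh] at hW2
    have h1 : Uᴴ * A * U = dg a := by
      rw [hAU]
      exact unconj hU _
    have h2 : Uᴴ * B * U = (Uᴴ * V) * dg b * (Uᴴ * V)ᴴ := by
      rw [hBV]
      exact reconj U V _
    have h3 := G_conj (W := Uᴴ) (X := A) (Y := B) hU.conjTranspose.1 1
    rw [Matrix.conjTranspose_conjTranspose, h1, h2] at h3
    rw [h3, hW2]
    exact reconj U W _
  · rintro ⟨hs, V, W, hV, hW, hF⟩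
    refine ⟨dg a, V * dg b * Vᴴ, ?_, ?_, hs, ?_⟩
    · rw [hasEigenvalues_iff]
      exact ⟨1, isU_one, by simp⟩
    · rw [hasEigenvalues_iff]
      exact ⟨V, hV, rfl⟩
    · rw [hasEigenvalues_iff]
      refine ⟨W, hW, ?_⟩
      rw [← G_one _ _ (dg_isHermitian _)
        (Matrix.isHermitian_mul_mul_conjTranspose V (dg_isHermitian b))]
      exact hF

/-- The Horn description holds for the pair of spectra `(a, b)`. -/
def Horn (a b : Fin n → ℝ) : Prop :=
  ∀ s : Fin n → ℝ, Realizable a b s ↔ (∀ i, 0 ≤ s i) ∧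
    SumRealizable (fun i => a i ^ 2) (fun i => b i ^ 2) (fun i => s i ^ 2)

lemma horn_of_tr {a b : Fin n → ℝ} (h : Tr a b) : Horn a b := by
  intro s
  rw [realizable_iff_solG, sum_iff_solG]
  have h0 : (0 : ℝ) ∈ Set.Icc (0 : ℝ) 1 := by simp
  have h1 : (1 : ℝ) ∈ Set.Icc (0 : ℝ) 1 := by simp
  exact ⟨fun hs => ⟨hs.1, h 1 h1 0 h0 _ hs.2⟩, fun hs => ⟨hs.1, h 0 h0 1 h1 _ hs.2⟩⟩

lemma HasEigenvalues.neg {A : Matrix (Fin n) (Fin n) ℂ} {a : Fin n → ℝ} (h : HasEigenvalues A a) :
    HasEigenvalues (-A) (fun i => -a i) := by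
  obtain ⟨V, hV, rfl⟩ := (hasEigenvalues_iff _ _).1 h
  rw [hasEigenvalues_iff]
  refine ⟨V, hV, ?_⟩
  have h1 : dg (fun i => -a i) = -dg a := by
    unfold dg
    rw [Matrix.diagonal_neg]
    congr 1
    ext i
    simp
  rw [h1, Matrix.mul_neg, Matrix.neg_mul]

lemma HasSingularValues.conjTranspose {T : Matrix (Fin n) (Fin n) ℂ} {s : Fin n → ℝ}
    (h : HasSingularValues T s) : HasSingularValues Tᴴ s := by
  refine ⟨h.1, ?_, ?_⟩
  · exact Matrix.isHermitian_conjTranspose_mul_self Tᴴ
  · rw [Matrix.conjTranspose_conjTranspose, Matrix.charpoly_mul_comm]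
    exact h.2.2

lemma HasSingularValues.neg {T : Matrix (Fin n) (Fin n) ℂ} {s : Fin n → ℝ}
    (h : HasSingularValues T s) : HasSingularValues (-T) s := by
  unfold HasSingularValues at *
  rw [Matrix.conjTranspose_neg, neg_mul_neg]
  exact h

lemma HasSingularValues.smul_I {T : Matrix (Fin n) (Fin n) ℂ} {s : Fin n → ℝ}
    (h : HasSingularValues T s) : HasSingularValues (I • T) s := by
  unfold HasSingularValues at *
  have e : (I • T)ᴴ * (I • T) = Tᴴ * T := by
    rw [Matrix.conjTranspose_smul, Matrix.smul_mul, Matrix.mul_smul, smul_smul]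
    have : star I * I = 1 := by simp
    rw [this, one_smul]
  rw [e]
  exact h

lemma Realizable.neg_right {a b s : Fin n → ℝ} (h : Realizable a b s) :
    Realizable a (fun i => -b i) s := by
  obtain ⟨A, B, hA, hB, hS⟩ := h
  refine ⟨A, -B, hA, hB.neg, ?_⟩
  have h1 : A + I • (-B) = (A + I • B)ᴴ := by
    rw [Matrix.conjTranspose_add, Matrix.conjTranspose_smul, hA.1.eq, hB.1.eq]
    have : star I = -I := by simp
    rw [this, smul_neg, neg_smul]
  rw [h1]
  exact hS.conjTranspose

lemma Realizable.symm {a b s : Fin n → ℝ} (h : Realizable a b s) : Realizable b a s := by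
  obtain ⟨A, B, hA, hB, hS⟩ := h
  refine ⟨B, A, hB, hA, ?_⟩
  have h1 : B + I • A = I • (A + I • B)ᴴ := by
    rw [Matrix.conjTranspose_add, Matrix.conjTranspose_smul, hA.1.eq, hB.1.eq]
    have h2 : star I = -I := by simp
    rw [h2, smul_add, smul_smul, mul_neg, I_mul_I, neg_neg, one_smul, add_comm]
  rw [h1]
  exact hS.conjTranspose.smul_I

lemma SumRealizable.symm {α β γ : Fin n → ℝ} (h : SumRealizable α β γ) : SumRealizable β α γ := by
  obtain ⟨P, Q, hP, hQ, hPQ⟩ := h
  exact ⟨Q, P, hQ, hP, by rw [add_comm]; exact hPQ⟩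

lemma Horn.symm {a b : Fin n → ℝ} (h : Horn a b) : Horn b a := by
  intro s
  constructor
  · intro hr
    have := (h s).1 hr.symm
    exact ⟨this.1, this.2.symm⟩
  · intro hr
    exact ((h s).2 ⟨hr.1, hr.2.symm⟩).symm

lemma Horn.of_neg_right {a b : Fin n → ℝ} (h : Horn a (fun i => -b i)) : Horn a b := by
  intro s
  have h1 := h s
  simp only [neg_sq] at h1
  rw [← h1]
  constructor
  · exact fun hr => hr.neg_right
  · intro hr
    have := hr.neg_right
    simpa using this

lemma Horn.of_neg_left {a b : Fin n → ℝ} (h : Horn (fun i => -a i) b) : Horn a b :=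
  (Horn.of_neg_right h.symm).symm

lemma CondP.symm {a b : Fin n → ℝ} (h : CondP a b) : CondP b a := by
  intro i k j l hik hjl
  have h1 := h j l i k hjl hik
  have e : (b i * a j + b k * a l) * (b i * a l + b k * a j)
    = (a j * b i + a l * b k) * (a j * b k + a l * b i) := by ring
  rw [e]
  exact h1

lemma CondP.neg_right {a b : Fin n → ℝ} (h : CondP a b) : CondP a (fun i => -b i) := by
  intro i k j l hik hjl
  have h1 := h i k j l hik hjl
  have e : (a i * -b j + a k * -b l) * (a i * -b l + a k * -b j)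
    = (a i * b j + a k * b l) * (a i * b l + a k * b j) := by ring
  show 0 ≤ (a i * -b j + a k * -b l) * (a i * -b l + a k * -b j)
  rw [e]
  exact h1

/-- The case where the first matrix is indefinite. -/
lemma horn_of_indef {a b : Fin n → ℝ} (hP : CondP a b) (hind : ∃ i k, a i < 0 ∧ 0 < a k) :
    Horn a b := by
  obtain ⟨i, k, hi, hk⟩ := hind
  have hik : i ≠ k := by
    intro h
    subst h
    linarith
  have hc : 0 < -(a i * a k) := by nlinarith
  have key : ∀ j l, j ≠ l → 0 ≤ b j * b l * (a i ^ 2 + a k ^ 2) - (-(a i * a k)) * (b j ^ 2 + b l ^ 2) := by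
    intro j l hjl
    have h1 := hP i k j l hik hjl
    have e : (a i * b j + a k * b l) * (a i * b l + a k * b j)
      = b j * b l * (a i ^ 2 + a k ^ 2) - (-(a i * a k)) * (b j ^ 2 + b l ^ 2) := by ring
    rwa [e] at h1
  have hA : 0 < a i ^ 2 + a k ^ 2 := by positivity
  have sgn : ∀ j0, b j0 ≠ 0 → ∀ l, 0 < b j0 * b l := by
    intro j0 hj0 l
    by_cases hl : j0 = l
    · subst hl
      have : b j0 * b j0 = b j0 ^ 2 := by ring
      rw [this]
      positivity
    · have h1 := key j0 l hl
      have h2 : 0 < b j0 ^ 2 + b l ^ 2 := by positivity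
      have h3 := mul_pos hc h2
      by_contra hcon
      push Not at hcon
      have := mul_nonpos_of_nonpos_of_nonneg hcon hA.le
      linarith
  by_cases hz : ∀ j, b j = 0
  · exact horn_of_tr (tr_scalar hz)
  push Not at hz
  obtain ⟨j0, hj0⟩ := hz
  rcases lt_or_gt_of_ne hj0 with h1 | h1
  · apply Horn.of_neg_right
    apply horn_of_tr
    apply tr_of_pos _ hP.neg_right
    intro l
    have h2 := sgn j0 hj0 l
    show 0 < -b l
    by_contra hcon
    push Not at hcon
    nlinarith
  · apply horn_of_tr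
    apply tr_of_pos _ hP
    intro l
    have h2 := sgn j0 hj0 l
    exact (mul_pos_iff_of_pos_left h1).1 h2

/-- **Forward direction.** -/
theorem fwd {a b : Fin n → ℝ} (hP : CondP a b) : Horn a b := by
  by_cases h1 : ∃ i k, a i < 0 ∧ 0 < a k
  · exact horn_of_indef hP h1
  by_cases h2 : ∃ i k, b i < 0 ∧ 0 < b k
  · exact (horn_of_indef hP.symm h2).symm
  have hs : ∀ c : Fin n → ℝ, (¬ ∃ i k, c i < 0 ∧ 0 < c k) → (∀ i, 0 ≤ c i) ∨ (∀ i, 0 ≤ -c i) := by
    intro c hc
    by_cases h : ∃ i, c i < 0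
    · right
      obtain ⟨i, hi⟩ := h
      intro k
      by_contra hcon
      push Not at hcon
      exact hc ⟨i, k, hi, by linarith⟩
    · left
      push Not at h
      exact h
  rcases hs a h1 with ha | ha
  · rcases hs b h2 with hb | hb
    · exact horn_of_tr (tr_of_nonneg ha hb)
    · exact Horn.of_neg_right (horn_of_tr (tr_of_nonneg ha hb))
  · rcases hs b h2 with hb | hb
    · exact Horn.of_neg_left (horn_of_tr (tr_of_nonneg ha hb))
    · exact Horn.of_neg_left (Horn.of_neg_right (horn_of_tr (tr_of_nonneg ha hb)))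

end Pool.Agent.Helper69.Cart
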