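import Pool.Agent.Helper69.Cart.Surj

set_option autoImplicit false

open Matrix Complex Topology
open scoped Matrix.Norms.Operator

namespace Pool.Agent.Helper69.Cart

open Pool.Agent.Helper44.Cart

variable {n : ℕ}

/-- The data `(a, b, γ)` are realised at the parameter `κ`. -/
def SolG (κ : ℝ) (a b γ : Fin n → ℝ) : Prop :=
  ∃ V W : Matrix (Fin n) (Fin n) ℂ, IsU V ∧ IsU W ∧
    G κ (dg a) (V * dg b * Vᴴ) = W * dg γ * Wᴴ

lemma trace_G (κ : ℝ) (a b : Fin n → ℝ) {V : Matrix (Fin n) (Fin n) ℂ} (hV : IsU V) :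
    Matrix.trace (G κ (dg a) (V * dg b * Vᴴ))
      = ((∑ i, a i ^ 2 + ∑ i, b i ^ 2 : ℝ) : ℂ) := by
  have e1 : Matrix.trace (dg a * dg a) = ((∑ i, a i ^ 2 : ℝ) : ℂ) := by
    rw [dg_mul_dg, trace_dg]
    congr 1
    exact Finset.sum_congr rfl fun i _ => by ring
  have e2 : Matrix.trace ((V * dg b * Vᴴ) * (V * dg b * Vᴴ)) = ((∑ i, b i ^ 2 : ℝ) : ℂ) := by
    rw [conj_mul_conj hV.1, trace_conj hV.1, dg_mul_dg, trace_dg]
    congr 1
    exact Finset.sum_congr rfl fun i _ => by ring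
  unfold G
  rw [Matrix.trace_add, Matrix.trace_add, Matrix.trace_smul, Matrix.trace_sub,
    Matrix.trace_mul_comm (dg a) (V * dg b * Vᴴ), sub_self, smul_zero, add_zero, e1, e2]
  push_cast
  rfl

/-- Local solvability near an irreducible simple pair. -/
theorem local_solvG {κ : ℝ} (hκ0 : 0 ≤ κ) (hκ1 : κ ≤ 1) {a b γ : Fin n → ℝ} (hSP : SP a b)
    (hainj : Function.Injective a) (hbinj : Function.Injective b)
    (hγinj : Function.Injective γ)
    {V W : Matrix (Fin n) (Fin n) ℂ} (hV : IsU V) (hW : IsU W)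
    (hF : G κ (dg a) (V * dg b * Vᴴ) = W * dg γ * Wᴴ) (hirr : Irr (V * dg b * Vᴴ)) :
    ∀ᶠ q : Par n × (Fin n → ℝ) in 𝓝 ((κ, a, b), γ),
      (∑ i, q.2 i = ∑ i, (q.1.2.1 i) ^ 2 + ∑ i, (q.1.2.2 i) ^ 2) →
      SolG q.1.1 q.1.2.1 q.1.2.2 q.2 := by
  classical
  have : CompleteSpace (Matrix (Fin n) (Fin n) ℂ) := FiniteDimensional.complete ℝ _
  set Φ : Matrix (Fin n) (Fin n) ℂ × Par n → (Fin (n - 1) → ℝ) × Par n :=
    fun q => (fun k => trL ((Gq V q) ^ ((k : ℕ) + 1 + 1)), q.2) with hΦdef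
  have hΦ : ContDiff ℝ 1 Φ := by
    apply ContDiff.prodMk
    · rw [contDiff_pi]
      intro k
      exact trL.contDiff.comp ((contDiff_Gq V).pow _)
    · exact contDiff_snd
  set p0 : Par n := (κ, a, b) with hp0
  have hstrict := (hΦ.contDiffAt (x := ((0 : Matrix (Fin n) (Fin n) ℂ), p0))).hasStrictFDerivAt
    (by norm_num)
  set D := fderiv ℝ Φ ((0 : Matrix (Fin n) (Fin n) ℂ), p0) with hD
  have hdir : ∀ x : Matrix (Fin n) (Fin n) ℂ, D (x, 0) =
      (fun k : Fin (n - 1) => (((k : ℕ) + 1 + 1 : ℕ) : ℝ) *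
        trL ((G κ (dg a) (V * dg b * Vᴴ)) ^ ((k : ℕ) + 1)
        * dGq κ (dg a) (V * dg b * Vᴴ) (x - xᴴ)), 0) := by
    intro x
    have hcurve : HasDerivAt (fun t : ℝ => (t • x, p0)) (x, (0 : Par n)) 0 := by
      have h1 : HasDerivAt (fun t : ℝ => t • x) ((1 : ℝ) • x) 0 := (hasDerivAt_id (0 : ℝ)).smul_const x
      rw [one_smul] at h1
      exact h1.prodMk (hasDerivAt_const _ _)
    have h0 : (fun t : ℝ => (t • x, p0)) 0 = ((0 : Matrix (Fin n) (Fin n) ℂ), p0) := by simp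
    have h1 : HasDerivAt (fun t : ℝ => Φ (t • x, p0)) (D (x, 0)) 0 := by
      have h2 : HasFDerivAt Φ D ((fun t : ℝ => (t • x, p0)) 0) := by
        rw [h0]; exact hstrict.hasFDerivAt
      exact h2.comp_hasDerivAt (0 : ℝ) hcurve
    have h3 : HasDerivAt (fun t : ℝ => Φ (t • x, p0))
        (fun k : Fin (n - 1) => (((k : ℕ) + 1 + 1 : ℕ) : ℝ) *
        trL ((G κ (dg a) (V * dg b * Vᴴ)) ^ ((k : ℕ) + 1)
        * dGq κ (dg a) (V * dg b * Vᴴ) (x - xᴴ)), 0) 0 := by
      apply HasDerivAt.prodMk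
      · rw [hasDerivAt_pi]
        intro k
        have h4 := hasDerivAt_pow_trL (hasDerivAt_Gq V x p0) ((k : ℕ) + 1)
        have h5 : Gq V ((0 : ℝ) • x, p0) = G κ (dg a) (V * dg b * Vᴴ) := by
          rw [zero_smul]
          unfold Gq
          rw [Bq_zero]
        rw [h5] at h4
        exact h4
      · exact hasDerivAt_const _ _
    exact h1.unique h3
  have hsnd : ∀ w, (D w).2 = w.2 := by
    intro w
    have h1 : HasFDerivAt (fun q => (Φ q).2) ((ContinuousLinearMap.snd ℝ _ _).comp D)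
        ((0 : Matrix (Fin n) (Fin n) ℂ), p0) := hstrict.hasFDerivAt.snd
    have h2 : HasFDerivAt (fun q : Matrix (Fin n) (Fin n) ℂ × Par n => (Φ q).2)
        (ContinuousLinearMap.snd ℝ (Matrix (Fin n) (Fin n) ℂ) (Par n))
        ((0 : Matrix (Fin n) (Fin n) ℂ), p0) := hasFDerivAt_snd
    have h3 := h1.unique h2
    have h4 := congrArg (fun L => L w) h3
    simpa using h4
  have hsurj : D.range = ⊤ := by
    rw [LinearMap.range_eq_top]
    rintro ⟨y, q⟩
    obtain ⟨x, hx⟩ := surj_dirG hκ0 hκ1 hSP hainj hbinj hγinj hV hW hF hirr (y - (D (0, q)).1)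
    refine ⟨(x, q), ?_⟩
    have h1 : ((x, q) : Matrix (Fin n) (Fin n) ℂ × Par n) = (x, 0) + (0, q) := by simp
    have h2 : D (x, q) = D (x, 0) + D (0, q) := by rw [h1, map_add]
    show D (x, q) = (y, q)
    rw [h2, hdir]
    ext1
    · ext k
      simp only [Prod.fst_add, Pi.add_apply]
      rw [hx k]
      simp
    · simp [hsnd]
  have hmap := hstrict.map_nhds_eq_of_surj hsurj
  have hex : ∀ᶠ w in 𝓝 (Φ ((0 : Matrix (Fin n) (Fin n) ℂ), p0)), ∃ q, Φ q = w := by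
    rw [← hmap]
    exact Filter.eventually_map.2 (Filter.Eventually.of_forall fun q => ⟨q, rfl⟩)
  set Ψ : Par n × (Fin n → ℝ) → (Fin (n - 1) → ℝ) × Par n :=
    fun q => (fun k => ∑ i, (q.2 i) ^ ((k : ℕ) + 1 + 1), q.1) with hΨ
  have hΨc : Continuous Ψ := by
    apply Continuous.prodMk
    · apply continuous_pi
      intro k
      fun_prop
    · exact continuous_fst
  have hΨ0 : Ψ (p0, γ) = Φ ((0 : Matrix (Fin n) (Fin n) ℂ), p0) := by
    rw [hΨ, hΦdef]
    ext1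
    · ext k
      show ∑ i, (γ i) ^ ((k : ℕ) + 1 + 1) = trL ((Gq V (0, p0)) ^ ((k : ℕ) + 1 + 1))
      have h5 : Gq V ((0 : Matrix (Fin n) (Fin n) ℂ), p0) = W * dg γ * Wᴴ := by
        unfold Gq
        rw [Bq_zero]
        exact hF
      rw [h5, trL_apply, trace_conj_pow hW, Complex.ofReal_re]
    · rfl
  have hev : ∀ᶠ q in 𝓝 (p0, γ), ∃ r, Φ r = Ψ q := by
    have := hΨc.tendsto (p0, γ)
    rw [hΨ0] at this
    exact this.eventually hex
  filter_upwards [hev] with q hq htr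
  obtain ⟨⟨x, p⟩, hr⟩ := hq
  have hp : p = q.1 := congrArg Prod.snd hr
  subst hp
  have hk : ∀ k : Fin (n - 1), trL ((Gq V (x, q.1)) ^ ((k : ℕ) + 1 + 1))
      = ∑ i, (q.2 i) ^ ((k : ℕ) + 1 + 1) := fun k => congrFun (congrArg Prod.fst hr) k
  set V' := NormedSpace.exp (x - xᴴ) * V with hV'
  have hV'U : IsU V' := (isU_exp (skew_sub x)).mul hV
  have hFq : Gq V (x, q.1) = G q.1.1 (dg q.1.2.1) (V' * dg q.1.2.2 * V'ᴴ) := by
    unfold Gq
    rw [Bq_eq]
  have hBh : (V' * dg q.1.2.2 * V'ᴴ).IsHermitian :=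
    Matrix.isHermitian_mul_mul_conjTranspose V' (dg_isHermitian q.1.2.2)
  have hFh : (G q.1.1 (dg q.1.2.1) (V' * dg q.1.2.2 * V'ᴴ)).IsHermitian :=
    G_isHermitian (dg_isHermitian _) hBh
  obtain ⟨W', hW', hW'2⟩ := exists_diag_of_traces hFh (γ := q.2) (by
    intro k h1 h2
    rcases Nat.lt_or_ge k 2 with h3 | h3
    · have : k = 1 := by omega
      subst this
      rw [pow_one, trace_G _ _ _ hV'U, ← htr]
      simp
    · obtain ⟨m, rfl⟩ : ∃ m, k = m + 1 + 1 := ⟨k - 2, by omega⟩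
      have h4 := hk ⟨m, by omega⟩
      rw [trace_eq_trL hFh, ← hFq, h4])
  exact ⟨V', W', hV'U, hW', hW'2⟩

/-- Regular data. -/
def RegG (a b γ : Fin n → ℝ) : Prop :=
  Function.Injective γ ∧
    ∀ I J K : Finset (Fin n), ∑ k ∈ K, γ k = ∑ i ∈ I, a i ^ 2 + ∑ j ∈ J, b j ^ 2 →
      K = ∅ ∨ K = Finset.univ

/-- Regular data exclude reducible pairs. -/
lemma irreducible_of_regG {κ : ℝ} {a b γ : Fin n → ℝ} {V W B : Matrix (Fin n) (Fin n) ℂ}
    (hb : ∀ i, 0 < b i) (hbinj : Function.Injective b)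
    (hreg : RegG a b γ) (hV : IsU V) (hW : IsU W)
    (hB : B = V * dg b * Vᴴ) (hF : G κ (dg a) B = W * dg γ * Wᴴ) (S : Finset (Fin n))
    (hS : ∀ j ∈ S, ∀ k, k ∉ S → B j k = 0) : S = ∅ ∨ S = Finset.univ := by
  classical
  obtain ⟨hγ, hsum⟩ := hreg
  set E : Matrix (Fin n) (Fin n) ℂ := dg (fun i => if i ∈ S then 1 else 0) with hEdef
  have hBh : B.IsHermitian := by
    rw [hB]; exact Matrix.isHermitian_mul_mul_conjTranspose V (dg_isHermitian b)
  have hS' : ∀ j, j ∉ S → ∀ k ∈ S, B j k = 0 := by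
    intro j hj k hk
    rw [← hBh.apply, hS k hk j hj, star_zero]
  have hE : E * E = E := by
    rw [hEdef, dg_mul_dg]
    congr 1
    ext i
    by_cases h : i ∈ S <;> simp [h]
  have hEA : E * dg a = dg a * E := by
    rw [hEdef, dg_mul_dg, dg_mul_dg]
    congr 1
    ext i
    ring
  have hEB : E * B = B * E := by
    ext j k
    rw [hEdef, dg, Matrix.diagonal_mul, Matrix.mul_diagonal]
    by_cases hj : j ∈ S
    · by_cases hk : k ∈ S
      · simp [hj, hk]
      · simp [hS j hj k hk]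
    · by_cases hk : k ∈ S
      · simp [hS' j hj k hk]
      · simp [hj, hk]
  have hBB : B * B = V * dg (fun i => b i ^ 2) * Vᴴ := by
    rw [hB, conj_mul_conj hV.1, dg_mul_dg]
    congr 3
    ext i
    ring
  have h4 : E * (B * B) = (B * B) * E := by
    rw [← mul_assoc, hEB, mul_assoc, hEB, ← mul_assoc]
  have hEF : E * G κ (dg a) B = G κ (dg a) B * E := by
    have h1 : E * (dg a * B) = (dg a * B) * E := by
      rw [← mul_assoc, hEA, mul_assoc, hEB, ← mul_assoc]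
    have h2 : E * (B * dg a) = (B * dg a) * E := by
      rw [← mul_assoc, hEB, mul_assoc, hEA, ← mul_assoc]
    have h3 : E * (dg a * dg a) = (dg a * dg a) * E := by
      rw [← mul_assoc, hEA, mul_assoc, hEA, ← mul_assoc]
    unfold G
    simp only [mul_add, add_mul, mul_smul_comm, smul_mul_assoc, mul_sub, sub_mul, h1, h2,
      h3, h4]
  have hb2 : Function.Injective (fun i => b i ^ 2) := by
    intro i j hij
    exact hbinj ((sq_eq_sq₀ (hb i).le (hb j).le).1 hij)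
  obtain ⟨J, hJ1, hJ2⟩ := subset_sum hV.1 hV.2 hb2 hBB hE h4
  obtain ⟨K, hK1, hK2⟩ := subset_sum hW.1 hW.2 hγ hF hE hEF
  have htrE : Matrix.trace E = (S.card : ℂ) := by
    rw [hEdef, trace_dg]
    have : (∑ i, (if i ∈ S then (1 : ℝ) else 0)) = (S.card : ℝ) := by simp
    rw [this, Complex.ofReal_natCast]
  have hEA1 : Matrix.trace (E * (dg a * dg a)) = ((∑ i ∈ S, a i ^ 2 : ℝ) : ℂ) := by
    rw [dg_mul_dg, hEdef, dg_mul_dg, trace_dg]
    have : (∑ i, (if i ∈ S then (1 : ℝ) else 0) * (a i * a i)) = ∑ i ∈ S, a i ^ 2 := by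
      simp [ite_mul, pow_two]
    rw [this]
  have hcomm : Matrix.trace (E * (dg a * B - B * dg a)) = 0 := by
    rw [mul_sub, Matrix.trace_sub, ← mul_assoc, hEA, mul_assoc, Matrix.trace_mul_comm (dg a),
      mul_assoc, sub_self]
  have hfin : (∑ k ∈ K, γ k : ℝ) = ∑ i ∈ S, a i ^ 2 + ∑ j ∈ J, b j ^ 2 := by
    have h1 : Matrix.trace (E * G κ (dg a) B)
        = Matrix.trace (E * (dg a * dg a)) + Matrix.trace (E * (B * B)) := by
      unfold G
      rw [mul_add, mul_add, mul_smul_comm, Matrix.trace_add, Matrix.trace_add,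
        Matrix.trace_smul, hcomm, smul_zero, add_zero]
    rw [hK1, hEA1, hJ1] at h1
    exact_mod_cast h1
  have hcard : (K.card : ℂ) = S.card := by rw [← hK2, htrE]
  have hcard' : K.card = S.card := by exact_mod_cast hcard
  rcases hsum S J K hfin with h | h
  · left
    rw [h, Finset.card_empty] at hcard'
    exact Finset.card_eq_zero.1 hcard'.symm
  · right
    rw [h] at hcard'
    exact Finset.eq_univ_of_card S (by rw [← hcard', Finset.card_univ])

end Pool.Agent.Helper69.Cart
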