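import Pool.Agent.Helper69.Cart.Crit

set_option autoImplicit false

open Matrix Complex Topology
open scoped Matrix.Norms.Operator

namespace Pool.Agent.Helper69.Cart

open Pool.Agent.Helper44.Cart

variable {n : ℕ}

noncomputable def Gq (V : Matrix (Fin n) (Fin n) ℂ) (q : Matrix (Fin n) (Fin n) ℂ × Par n) :
    Matrix (Fin n) (Fin n) ℂ :=
  G q.2.1 (dg q.2.2.1) (Bq V q.1 q.2.2.2)

lemma real_smul_eq (r : ℝ) (X : Matrix (Fin n) (Fin n) ℂ) : (r : ℂ) • X = r • X := by
  ext i j
  simp

lemma G_eq (κ : ℝ) (A B : Matrix (Fin n) (Fin n) ℂ) :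
    G κ A B = A * A + B * B + κ • ((I • (1 : Matrix (Fin n) (Fin n) ℂ)) * (A * B - B * A)) := by
  unfold G
  rw [smul_mul_assoc, one_mul, ← real_smul_eq, smul_smul]

lemma contDiff_Gq (V : Matrix (Fin n) (Fin n) ℂ) : ContDiff ℝ 1 (Gq V) := by
  have hx : ContDiff ℝ 1 (fun q : Matrix (Fin n) (Fin n) ℂ × Par n => q.1 - starL q.1) := by
    fun_prop
  have he1 : ContDiff ℝ 1 (fun q : Matrix (Fin n) (Fin n) ℂ × Par n =>
      NormedSpace.exp (q.1 - starL q.1)) := contDiff_mexp.comp hx
  have he2 : ContDiff ℝ 1 (fun q : Matrix (Fin n) (Fin n) ℂ × Par n =>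
      NormedSpace.exp (-(q.1 - starL q.1))) := contDiff_mexp.comp hx.neg
  have hb : ContDiff ℝ 1 (fun q : Matrix (Fin n) (Fin n) ℂ × Par n => dgL q.2.2.2) := by
    fun_prop
  have ha : ContDiff ℝ 1 (fun q : Matrix (Fin n) (Fin n) ℂ × Par n => dgL q.2.2.1) := by
    fun_prop
  have hB : ContDiff ℝ 1 (fun q : Matrix (Fin n) (Fin n) ℂ × Par n =>
      NormedSpace.exp (q.1 - starL q.1) * (V * dgL q.2.2.2 * Vᴴ) *
        NormedSpace.exp (-(q.1 - starL q.1))) := by
    exact (he1.mul ((contDiff_const.mul hb).mul contDiff_const)).mul he2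
  have hk : ContDiff ℝ 1 (fun q : Matrix (Fin n) (Fin n) ℂ × Par n => q.2.1) := by
    fun_prop
  have hF : ContDiff ℝ 1 (fun q : Matrix (Fin n) (Fin n) ℂ × Par n =>
      (dgL q.2.2.1 * dgL q.2.2.1 + (NormedSpace.exp (q.1 - starL q.1) * (V * dgL q.2.2.2 * Vᴴ) *
        NormedSpace.exp (-(q.1 - starL q.1))) * (NormedSpace.exp (q.1 - starL q.1) *
        (V * dgL q.2.2.2 * Vᴴ) * NormedSpace.exp (-(q.1 - starL q.1)))) +
      q.2.1 • ((I • (1 : Matrix (Fin n) (Fin n) ℂ)) * (dgL q.2.2.1 * (NormedSpace.exp (q.1 - starL q.1) *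
      (V * dgL q.2.2.2 * Vᴴ) * NormedSpace.exp (-(q.1 - starL q.1))) -
      (NormedSpace.exp (q.1 - starL q.1) * (V * dgL q.2.2.2 * Vᴴ) *
        NormedSpace.exp (-(q.1 - starL q.1))) * dgL q.2.2.1))) := by
    exact ((ha.mul ha).add (hB.mul hB)).add
      (hk.smul (contDiff_const.mul ((ha.mul hB).sub (hB.mul ha))))
  have e : Gq V = (fun q : Matrix (Fin n) (Fin n) ℂ × Par n =>
      (dgL q.2.2.1 * dgL q.2.2.1 + (NormedSpace.exp (q.1 - starL q.1) * (V * dgL q.2.2.2 * Vᴴ) *
        NormedSpace.exp (-(q.1 - starL q.1))) * (NormedSpace.exp (q.1 - starL q.1) *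
        (V * dgL q.2.2.2 * Vᴴ) * NormedSpace.exp (-(q.1 - starL q.1)))) +
      q.2.1 • ((I • (1 : Matrix (Fin n) (Fin n) ℂ)) * (dgL q.2.2.1 * (NormedSpace.exp (q.1 - starL q.1) *
      (V * dgL q.2.2.2 * Vᴴ) * NormedSpace.exp (-(q.1 - starL q.1))) -
      (NormedSpace.exp (q.1 - starL q.1) * (V * dgL q.2.2.2 * Vᴴ) *
        NormedSpace.exp (-(q.1 - starL q.1))) * dgL q.2.2.1))) := by
    funext q
    unfold Gq
    rw [G_eq]
    rfl
  rw [e]
  exact hF

/-- The derivative of `Gq` in the direction `x`. -/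
noncomputable def dGq (κ : ℝ) (A B K : Matrix (Fin n) (Fin n) ℂ) : Matrix (Fin n) (Fin n) ℂ :=
  (K * B - B * K) * B + B * (K * B - B * K)
    + ((κ : ℂ) * I) • (A * (K * B - B * K) - (K * B - B * K) * A)

lemma hasDerivAt_Gq (V x : Matrix (Fin n) (Fin n) ℂ) (p : Par n) :
    HasDerivAt (fun t : ℝ => Gq V (t • x, p))
      (dGq p.1 (dg p.2.1) (V * dg p.2.2 * Vᴴ) (x - xᴴ)) 0 := by
  set K := x - xᴴ with hK
  set B := V * dg p.2.2 * Vᴴ with hB
  set A := dg p.2.1 with hA
  have hsm : ∀ t : ℝ, (t • x) - (t • x)ᴴ = t • K := by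
    intro t
    rw [hK, Matrix.conjTranspose_smul, smul_sub]
    simp
  have he1 : HasDerivAt (fun t : ℝ => NormedSpace.exp (t • K)) K 0 := by
    have := hasDerivAt_exp_smul_const (𝕂 := ℝ) K (0 : ℝ)
    simp only [zero_smul, NormedSpace.exp_zero, one_mul] at this
    exact this
  have he2 : HasDerivAt (fun t : ℝ => NormedSpace.exp (-(t • K))) (-K) 0 := by
    have := hasDerivAt_exp_smul_const (𝕂 := ℝ) (-K) (0 : ℝ)
    simp only [smul_neg, zero_smul, neg_zero, NormedSpace.exp_zero, one_mul] at this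
    exact this
  have hBd : HasDerivAt (fun t : ℝ => NormedSpace.exp (t • K) * B * NormedSpace.exp (-(t • K)))
      (K * B - B * K) 0 := by
    have := (he1.mul_const B).mul he2
    simp only [zero_smul, neg_zero, NormedSpace.exp_zero, one_mul, mul_one, mul_neg] at this
    rw [sub_eq_add_neg]
    exact this
  have hB0 : NormedSpace.exp ((0:ℝ) • K) * B * NormedSpace.exp (-((0:ℝ) • K)) = B := by simp
  have hF : HasDerivAt (fun t : ℝ =>
      A * A + (NormedSpace.exp (t • K) * B * NormedSpace.exp (-(t • K))) * (NormedSpace.exp (t • K) * B * NormedSpace.exp (-(t • K)))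
        + ((p.1 : ℂ) * I) • (A * (NormedSpace.exp (t • K) * B * NormedSpace.exp (-(t • K))) - (NormedSpace.exp (t • K) * B * NormedSpace.exp (-(t • K))) * A))
      (dGq p.1 A B K) 0 := by
    have h2 := (((hBd.mul hBd).const_add (A * A)).add (((hBd.const_mul A).sub (hBd.mul_const A)).const_smul ((p.1 : ℂ) * I)))
    rw [hB0] at h2
    exact h2
  refine hF.congr_of_eventuallyEq ?_
  filter_upwards with t
  unfold Gq G Bq
  simp only [hsm]
  rfl

lemma trace_momentG (κ : ℝ) (A B K M : Matrix (Fin n) (Fin n) ℂ) :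
    Matrix.trace (M * dGq κ A B K) = Matrix.trace (K * (B * (B * M + M * B + ((κ : ℂ) * I) • (M * A - A * M))
      - (B * M + M * B + ((κ : ℂ) * I) • (M * A - A * M)) * B)) := by
  set N := B * M + M * B + ((κ : ℂ) * I) • (M * A - A * M) with hN
  set B' := K * B - B * K with hB'
  have h1 : Matrix.trace (M * dGq κ A B K) = Matrix.trace (N * B') := by
    unfold dGq
    rw [← hB', hN]
    simp only [Matrix.mul_add, Matrix.add_mul, Matrix.mul_smul, Matrix.smul_mul, Matrix.trace_add,
      Matrix.trace_smul, Matrix.mul_sub, Matrix.sub_mul, Matrix.trace_sub]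
    have e1 : Matrix.trace (M * (B' * B)) = Matrix.trace (B * M * B') := by
      rw [← Matrix.mul_assoc, Matrix.trace_mul_comm, ← Matrix.mul_assoc]
    have e2 : Matrix.trace (M * (B * B')) = Matrix.trace (M * B * B') := by
      rw [Matrix.mul_assoc]
    have e3 : Matrix.trace (M * (A * B')) = Matrix.trace (M * A * B') := by
      rw [Matrix.mul_assoc]
    have e4 : Matrix.trace (M * (B' * A)) = Matrix.trace (A * M * B') := by
      rw [← Matrix.mul_assoc, Matrix.trace_mul_comm, ← Matrix.mul_assoc]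
    rw [e1, e2, e3, e4]
  have h2 : Matrix.trace (N * B') = Matrix.trace (K * (B * N - N * B)) := by
    rw [hB', Matrix.mul_sub, Matrix.mul_sub, Matrix.trace_sub, Matrix.trace_sub]
    have e1 : Matrix.trace (N * (K * B)) = Matrix.trace (K * (B * N)) := by
      rw [Matrix.trace_mul_comm, Matrix.mul_assoc]
    have e2 : Matrix.trace (N * (B * K)) = Matrix.trace (K * (N * B)) := by
      rw [← Matrix.mul_assoc, Matrix.trace_mul_comm]
    rw [e1, e2]
  rw [h1, h2]

lemma dGq_add (κ : ℝ) (A B K L : Matrix (Fin n) (Fin n) ℂ) :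
    dGq κ A B (K + L) = dGq κ A B K + dGq κ A B L := by
  unfold dGq
  simp only [mul_add, add_mul, mul_sub, sub_mul]
  module

lemma dGq_smul (κ r : ℝ) (A B K : Matrix (Fin n) (Fin n) ℂ) :
    dGq κ A B (r • K) = r • dGq κ A B K := by
  rw [← real_smul_eq, ← real_smul_eq]
  unfold dGq
  simp only [mul_sub, sub_mul, smul_mul_assoc, mul_smul_comm]
  module

lemma G_isHermitian {κ : ℝ} {A B : Matrix (Fin n) (Fin n) ℂ} (hA : A.IsHermitian)
    (hB : B.IsHermitian) : (G κ A B).IsHermitian := by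
  unfold G
  rw [Matrix.IsHermitian]
  simp only [Matrix.conjTranspose_add, Matrix.conjTranspose_mul, Matrix.conjTranspose_smul,
      Matrix.conjTranspose_sub, hA.eq, hB.eq]
  have h1 : star ((κ : ℂ) * I) = -((κ : ℂ) * I) := by simp
  rw [h1]
  module

/-- A Hermitian matrix commuting with an irreducible pair is scalar. -/
lemma scalar_of_commute {a : Fin n → ℝ} (hainj : Function.Injective a)
    {M B : Matrix (Fin n) (Fin n) ℂ} (hM : M.IsHermitian) (h1 : dg a * M = M * dg a)
    (h2 : B * M = M * B) (hirr : Irr B) :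
    ∃ μ : ℝ, M = (μ : ℂ) • (1 : Matrix (Fin n) (Fin n) ℂ) := by
  classical
  rcases Nat.eq_zero_or_pos n with hn | hn
  · subst hn
    exact ⟨0, by ext i; exact i.elim0⟩
  have hoff : ∀ j k, j ≠ k → M j k = 0 := fun j k hjk => offdiag_zero_of_commute hainj h1 hjk
  set j0 : Fin n := ⟨0, hn⟩
  have hall : ∀ j, M j j = M j0 j0 := by
    by_contra hall
    push Not at hall
    obtain ⟨j1, hj1⟩ := hall
    rcases hirr (Finset.univ.filter (fun j => M j j = M j0 j0)) (by
        intro j hj k hk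
        simp only [Finset.mem_filter, Finset.mem_univ, true_and] at hj hk
        have h1 := congrFun (congrFun h2 j) k
        rw [Matrix.mul_apply, Matrix.mul_apply, Finset.sum_eq_single k, Finset.sum_eq_single j] at h1
        · have h2 : B j k * (M k k - M j j) = 0 := by
            rw [mul_sub, h1]; ring
          rcases mul_eq_zero.1 h2 with h3 | h3
          · exact h3
          · exfalso
            apply hk
            rw [sub_eq_zero.1 h3, hj]
        · intro i _ hi
          rw [hoff j i (Ne.symm hi), zero_mul]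
        · intro h; exact absurd (Finset.mem_univ _) h
        · intro i _ hi
          rw [hoff i k hi, mul_zero]
        · intro h; exact absurd (Finset.mem_univ _) h) with h | h
    · have : j0 ∈ Finset.univ.filter (fun j => M j j = M j0 j0) := by simp
      rw [h] at this
      simp at this
    · have : j1 ∈ Finset.univ.filter (fun j => M j j = M j0 j0) := by
        rw [h]; exact Finset.mem_univ _
      simp at this
      exact hj1 this
  refine ⟨(M j0 j0).re, ?_⟩
  have hr : M j0 j0 = ((M j0 j0).re : ℂ) := by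
    have := hM.apply j0 j0
    exact (Complex.conj_eq_iff_real.1 this).elim (fun r hr => by rw [hr]; simp)
  ext j k
  by_cases hjk : j = k
  · subst hjk
    rw [hall j, hr]; simp
  · rw [hoff j k hjk]; simp [hjk]

/-- Surjectivity of the differential. -/
theorem surj_dirG {κ : ℝ} (hκ0 : 0 ≤ κ) (hκ1 : κ ≤ 1) {a b γ : Fin n → ℝ} (hSP : SP a b)
    (hainj : Function.Injective a) (hbinj : Function.Injective b)
    (hγinj : Function.Injective γ)
    {V W : Matrix (Fin n) (Fin n) ℂ} (hV : IsU V) (hW : IsU W)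
    (hF : G κ (dg a) (V * dg b * Vᴴ) = W * dg γ * Wᴴ) (hirr : Irr (V * dg b * Vᴴ))
    (y : Fin (n - 1) → ℝ) :
    ∃ x : Matrix (Fin n) (Fin n) ℂ, ∀ k : Fin (n - 1),
      (((k : ℕ) + 1 + 1 : ℕ) : ℝ) * trL ((G κ (dg a) (V * dg b * Vᴴ)) ^ ((k : ℕ) + 1)
        * dGq κ (dg a) (V * dg b * Vᴴ) (x - xᴴ)) = y k := by
  classical
  rcases Nat.eq_zero_or_pos n with hn | hn
  · subst hn
    exact ⟨0, fun k => absurd k.2 (by simp)⟩
  set A : Matrix (Fin n) (Fin n) ℂ := dg a with hA
  set B := V * dg b * Vᴴ with hB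
  set F := G κ A B with hFdef
  have hBh : B.IsHermitian := Matrix.isHermitian_mul_mul_conjTranspose V (dg_isHermitian b)
  have hAh : A.IsHermitian := dg_isHermitian a
  have hFh : F.IsHermitian := G_isHermitian hAh hBh
  let L : Matrix (Fin n) (Fin n) ℂ →ₗ[ℝ] (Fin (n - 1) → ℝ) :=
    { toFun := fun x k => (((k : ℕ) + 1 + 1 : ℕ) : ℝ) *
        trL (F ^ ((k : ℕ) + 1) * dGq κ A B (x - xᴴ))
      map_add' := by
        intro x x'
        ext k
        have h1 : (x + x') - (x + x')ᴴ = (x - xᴴ) + (x' - x'ᴴ) := by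
          rw [Matrix.conjTranspose_add]; abel
        simp only [Pi.add_apply]
        rw [h1, dGq_add, mul_add, map_add, mul_add]
      map_smul' := by
        intro r x
        ext k
        have h1 : (r • x) - (r • x)ᴴ = r • (x - xᴴ) := by
          rw [Matrix.conjTranspose_smul, smul_sub]; simp
        simp only [Pi.smul_apply, smul_eq_mul, RingHom.id_apply]
        rw [h1, dGq_smul, mul_smul_comm, map_smul, smul_eq_mul]
        ring }
  suffices hL : LinearMap.range L = ⊤ by
    obtain ⟨x, hx⟩ := LinearMap.range_eq_top.1 hL y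
    exact ⟨x, fun k => congrFun hx k⟩
  by_contra hne
  obtain ⟨φ, hφ, hker⟩ :=
    Submodule.exists_le_ker_of_lt_top (LinearMap.range L) (lt_top_iff_ne_top.2 hne)
  set z : Fin (n - 1) → ℝ := fun k => φ (Pi.single k 1) with hz
  have hφz : ∀ w : Fin (n - 1) → ℝ, φ w = ∑ k, w k * z k := by
    intro w
    rw [LinearMap.pi_apply_eq_sum_univ φ w]
    apply Finset.sum_congr rfl
    intro k _
    rw [hz, smul_eq_mul]
    congr 2
    ext j
    rw [Pi.single_apply]
    simp only [eq_comm]
  set c : Fin (n - 1) → ℝ := fun k => z k * (((k : ℕ) + 1 + 1 : ℕ) : ℝ) with hc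
  set M : Matrix (Fin n) (Fin n) ℂ := ∑ k : Fin (n - 1), c k • F ^ ((k : ℕ) + 1) with hM
  have h0 : ∀ x : Matrix (Fin n) (Fin n) ℂ, trL (M * dGq κ A B (x - xᴴ)) = 0 := by
    intro x
    have h1 : φ (L x) = 0 := hker (LinearMap.mem_range_self L x)
    rw [hφz] at h1
    rw [hM, Finset.sum_mul, map_sum, ← h1]
    apply Finset.sum_congr rfl
    intro k _
    rw [smul_mul_assoc, map_smul, smul_eq_mul, hc]
    show _ = ((((k : ℕ) + 1 + 1 : ℕ) : ℝ) * trL (F ^ ((k : ℕ) + 1) * dGq κ A B (x - xᴴ))) * z k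
    ring
  have hMh : M.IsHermitian := by
    rw [Matrix.IsHermitian, hM, Matrix.conjTranspose_sum]
    apply Finset.sum_congr rfl
    intro k _
    rw [Matrix.conjTranspose_smul, Matrix.conjTranspose_pow, hFh.eq]
    simp
  have hFM : F * M = M * F := by
    rw [hM, Finset.mul_sum, Finset.sum_mul]
    apply Finset.sum_congr rfl
    intro k _
    rw [mul_smul_comm, smul_mul_assoc, ← pow_succ', ← pow_succ]
  set N := B * M + M * B + ((κ : ℂ) * I) • (M * A - A * M) with hN
  have hNh : N.IsHermitian := by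
    rw [Matrix.IsHermitian, hN]
    simp only [Matrix.conjTranspose_add, Matrix.conjTranspose_mul, Matrix.conjTranspose_smul,
      Matrix.conjTranspose_sub, hAh.eq, hBh.eq, hMh.eq]
    have h1 : star ((κ : ℂ) * I) = -((κ : ℂ) * I) := by simp
    rw [h1]
    module
  have hK : (B * N - N * B)ᴴ = -(B * N - N * B) := by
    rw [Matrix.conjTranspose_sub, Matrix.conjTranspose_mul B N, Matrix.conjTranspose_mul N B,
      hBh.eq, hNh.eq]
    abel
  have hBN : B * N = N * B := by
    have h1 : (((1 / 2 : ℝ) • (B * N - N * B)) - ((1 / 2 : ℝ) • (B * N - N * B))ᴴ) =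
        B * N - N * B := by
      rw [Matrix.conjTranspose_smul, hK]
      have : star (1 / 2 : ℝ) = 1 / 2 := by simp
      rw [this]
      module
    have h2 := h0 ((1 / 2 : ℝ) • (B * N - N * B))
    rw [h1, trL_apply, trace_momentG, ← hN, ← trL_apply] at h2
    exact sub_eq_zero.1 (eq_zero_of_skew_trace hK h2)
  have hscal : ∃ μ : ℝ, M = (μ : ℂ) • (1 : Matrix (Fin n) (Fin n) ℂ) := by
    obtain ⟨c1, c2⟩ := critG hκ0 hκ1 hSP hainj hbinj hV hMh hA hB hFM hBN
    exact scalar_of_commute hainj hMh c1 c2 hirr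
  obtain ⟨μ, hμ⟩ := hscal
  have hMW : M = W * dg (fun i => ∑ k, c k * γ i ^ ((k : ℕ) + 1)) * Wᴴ := by
    have h1 : dg (fun i => ∑ k, c k * γ i ^ ((k : ℕ) + 1))
        = ∑ k, c k • dg (fun i => γ i ^ ((k : ℕ) + 1)) := by
      have h2 : (fun i => ∑ k, c k * γ i ^ ((k : ℕ) + 1))
        = ∑ k, c k • (fun i => γ i ^ ((k : ℕ) + 1)) := by
        ext i
        simp [Finset.sum_apply]
      rw [h2, ← dgL_apply, map_sum]
      apply Finset.sum_congr rfl
      intro k _
      rw [map_smul, dgL_apply]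
    rw [h1, Finset.mul_sum, Finset.sum_mul, hM]
    apply Finset.sum_congr rfl
    intro k _
    rw [hF, conj_pow hW, mul_smul_comm, smul_mul_assoc]
  have hγμ : ∀ i, ∑ k, c k * γ i ^ ((k : ℕ) + 1) = μ := by
    intro i
    have h1 : dg (fun i => ∑ k, c k * γ i ^ ((k : ℕ) + 1)) = (μ : ℂ) • (1 : Matrix (Fin n) (Fin n) ℂ) := by
      have h2 : Wᴴ * M * W = dg (fun i => ∑ k, c k * γ i ^ ((k : ℕ) + 1)) := by
        rw [hMW]
        have : Wᴴ * (W * dg (fun i => ∑ k, c k * γ i ^ ((k : ℕ) + 1)) * Wᴴ) * W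
          = (Wᴴ * W) * dg (fun i => ∑ k, c k * γ i ^ ((k : ℕ) + 1)) * (Wᴴ * W) := by
          simp only [Matrix.mul_assoc]
        rw [this, hW.1, Matrix.one_mul, Matrix.mul_one]
      rw [← h2, hμ, Matrix.mul_smul, Matrix.mul_one, Matrix.smul_mul, hW.1]
    have h3 := congrFun (congrFun h1 i) i
    rw [dg, Matrix.diagonal_apply_eq, Matrix.smul_apply, Matrix.one_apply_eq, smul_eq_mul,
      mul_one] at h3
    exact_mod_cast h3
  set P : Polynomial ℝ := (∑ k : Fin (n - 1), Polynomial.C (c k) * Polynomial.X ^ ((k : ℕ) + 1))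
    - Polynomial.C μ with hP
  have hPdeg : P.natDegree < Fintype.card (Fin n) := by
    rw [Fintype.card_fin]
    have h1 : P.natDegree ≤ n - 1 := by
      rw [hP]
      apply (Polynomial.natDegree_sub_le _ _).trans
      apply max_le
      · apply Polynomial.natDegree_sum_le_of_forall_le
        intro k _
        exact (Polynomial.natDegree_C_mul_X_pow_le _ _).trans (by omega)
      · rw [Polynomial.natDegree_C]; exact Nat.zero_le _
    omega
  have hP0 : P = 0 := by
    apply Polynomial.eq_zero_of_natDegree_lt_card_of_eval_eq_zero P hγinj _ hPdeg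
    intro i
    rw [hP, Polynomial.eval_sub, Polynomial.eval_finsetSum, Polynomial.eval_C]
    simp only [Polynomial.eval_mul, Polynomial.eval_C, Polynomial.eval_pow, Polynomial.eval_X]
    rw [hγμ i, sub_self]
  apply hφ
  ext k
  simp only [LinearMap.coe_comp, Function.comp_apply, LinearMap.coe_single, LinearMap.zero_comp,
    LinearMap.zero_apply]
  have hck : c k = 0 := by
    have h1 : P.coeff ((k : ℕ) + 1) = 0 := by rw [hP0, Polynomial.coeff_zero]
    rw [hP, Polynomial.coeff_sub, Polynomial.finsetSum_coeff, Polynomial.coeff_C,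
      if_neg (Nat.succ_ne_zero _), sub_zero, Finset.sum_eq_single k] at h1
    · rw [Polynomial.coeff_C_mul, Polynomial.coeff_X_pow, if_pos rfl, mul_one] at h1
      exact h1
    · intro j _ hj
      rw [Polynomial.coeff_C_mul, Polynomial.coeff_X_pow, if_neg, mul_zero]
      intro h
      apply hj
      apply Fin.ext
      omega
    · intro h; exact absurd (Finset.mem_univ _) h
  rw [hc] at hck
  rcases mul_eq_zero.1 hck with h | h
  · exact h
  · exfalso
    have : (((k : ℕ) + 1 + 1 : ℕ) : ℝ) ≠ 0 := by positivity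
    exact this h

end Pool.Agent.Helper69.Cart
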