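import Pool.Agent.Helper69.Cart.SolveG

set_option autoImplicit false

open Matrix Complex Topology Filter

namespace Pool.Agent.Helper69.Cart

open Pool.Agent.Helper44.Cart

variable {n : ℕ}

lemma tendsto_G {u : ℕ → ℝ} {u0 : ℝ} {A B : ℕ → Matrix (Fin n) (Fin n) ℂ}
    {A0 B0 : Matrix (Fin n) (Fin n) ℂ}
    (hu : Tendsto u atTop (𝓝 u0)) (hA : Tendsto A atTop (𝓝 A0)) (hB : Tendsto B atTop (𝓝 B0)) :
    Tendsto (fun m => G (u m) (A m) (B m)) atTop (𝓝 (G u0 A0 B0)) := by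
  have h2 : Tendsto (fun m => ((u m : ℝ) : ℂ) * I) atTop (𝓝 (((u0 : ℝ) : ℂ) * I)) :=
    ((Complex.continuous_ofReal.tendsto _).comp hu).mul_const I
  unfold G
  exact ((hA.mul hA).add (hB.mul hB)).add (h2.smul ((hA.mul hB).sub (hB.mul hA)))

lemma exists_subseqU {V W : ℕ → Matrix (Fin n) (Fin n) ℂ} (hV : ∀ m, IsU (V m))
    (hW : ∀ m, IsU (W m)) :
    ∃ (V0 W0 : Matrix (Fin n) (Fin n) ℂ) (φ : ℕ → ℕ), Tendsto φ atTop atTop ∧ IsU V0 ∧ IsU W0 ∧
      Tendsto (fun m => V (φ m)) atTop (𝓝 V0) ∧ Tendsto (fun m => W (φ m)) atTop (𝓝 W0) := by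
  obtain ⟨V0, hV0, φ3, hφ3, hl3⟩ := isCompact_U.tendsto_subseq (x := V) (fun m => hV _)
  obtain ⟨W0, hW0, φ4, hφ4, hl4⟩ := isCompact_U.tendsto_subseq (x := W ∘ φ3) (fun m => hW _)
  exact ⟨V0, W0, φ3 ∘ φ4, hφ3.tendsto_atTop.comp hφ4.tendsto_atTop, hV0, hW0,
    hl3.comp hφ4.tendsto_atTop, hl4⟩

theorem solG_closed {u : ℕ → ℝ} {a b γ : ℕ → Fin n → ℝ} {u0 : ℝ} {a0 b0 γ0 : Fin n → ℝ}
    (hu : Tendsto u atTop (𝓝 u0)) (ha : Tendsto a atTop (𝓝 a0)) (hb : Tendsto b atTop (𝓝 b0))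
    (hγ : Tendsto γ atTop (𝓝 γ0)) (h : ∀ m, SolG (u m) (a m) (b m) (γ m)) :
    SolG u0 a0 b0 γ0 := by
  choose V W hV hW hF using h
  obtain ⟨V0, W0, φ, hφ, hV0, hW0, hlV, hlW⟩ := exists_subseqU hV hW
  refine ⟨V0, W0, hV0, hW0, ?_⟩
  have hladg : Tendsto (fun m => dg (a (φ m))) atTop (𝓝 (dg a0)) :=
    (continuous_dg.tendsto a0).comp (ha.comp hφ)
  have h1 : Tendsto (fun m => G (u (φ m)) (dg (a (φ m))) (V (φ m) * dg (b (φ m)) * (V (φ m))ᴴ))
      atTop (𝓝 (G u0 (dg a0) (V0 * dg b0 * V0ᴴ))) :=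
    tendsto_G (hu.comp hφ) hladg (tendsto_conj (hb.comp hφ) hlV)
  have h2 : Tendsto (fun m => W (φ m) * dg (γ (φ m)) * (W (φ m))ᴴ)
      atTop (𝓝 (W0 * dg γ0 * W0ᴴ)) := tendsto_conj (hγ.comp hφ) hlW
  have h3 : (fun m => G (u (φ m)) (dg (a (φ m))) (V (φ m) * dg (b (φ m)) * (V (φ m))ᴴ))
      = fun m => W (φ m) * dg (γ (φ m)) * (W (φ m))ᴴ := by
    ext1 m; exact hF (φ m)
  rw [h3] at h1
  exact tendsto_nhds_unique h1 h2

/-- Invariance under permutations. -/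
lemma SolG.perm {κ : ℝ} {a b γ : Fin n → ℝ} (σ τ : Equiv.Perm (Fin n)) (h : SolG κ a b γ) :
    SolG κ a (b ∘ σ) (γ ∘ τ) := by
  obtain ⟨V, W, hV, hW, hF⟩ := h
  obtain ⟨V', hV', hV2⟩ := conj_perm hV b σ
  obtain ⟨W', hW', hW2⟩ := conj_perm hW γ τ
  refine ⟨V', W', hV', hW', ?_⟩
  rw [← hV2, ← hW2]
  exact hF

lemma SolG.unperm {κ : ℝ} {a b γ : Fin n → ℝ} {σ τ : Equiv.Perm (Fin n)}
    (h : SolG κ a (b ∘ σ) (γ ∘ τ)) : SolG κ a b γ := by
  have h2 := h.perm σ.symm τ.symm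
  have e1 : (b ∘ σ) ∘ σ.symm = b := by ext i; simp
  have e2 : (γ ∘ τ) ∘ τ.symm = γ := by ext i; simp
  rw [e1, e2] at h2
  exact h2

lemma SP.perm {a b : Fin n → ℝ} (h : SP a b) (σ : Equiv.Perm (Fin n)) : SP a (b ∘ σ) :=
  ⟨fun j => h.1 (σ j), fun i k j l => h.2 i k (σ j) (σ l)⟩

lemma SP_eventually {a b : Fin n → ℝ} (h : SP a b) :
    ∀ᶠ p : (Fin n → ℝ) × (Fin n → ℝ) in 𝓝 (a, b), SP p.1 p.2 := by
  have h1 : ∀ᶠ p : (Fin n → ℝ) × (Fin n → ℝ) in 𝓝 (a, b), ∀ j, 0 < p.2 j := by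
    rw [eventually_all]
    intro j
    have hc : Continuous (fun p : (Fin n → ℝ) × (Fin n → ℝ) => p.2 j) := by fun_prop
    exact (hc.tendsto (a, b)).eventually (lt_mem_nhds (h.1 j))
  have h2 : ∀ᶠ p : (Fin n → ℝ) × (Fin n → ℝ) in 𝓝 (a, b), ∀ i k j l,
      0 < p.2 j * p.2 l * (p.1 i ^ 2 + p.1 k ^ 2) + p.1 i * p.1 k * (p.2 j ^ 2 + p.2 l ^ 2) := by
    rw [eventually_all]; intro i
    rw [eventually_all]; intro k
    rw [eventually_all]; intro j
    rw [eventually_all]; intro l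
    have hc : Continuous (fun p : (Fin n → ℝ) × (Fin n → ℝ) =>
      p.2 j * p.2 l * (p.1 i ^ 2 + p.1 k ^ 2) + p.1 i * p.1 k * (p.2 j ^ 2 + p.2 l ^ 2)) := by
      fun_prop
    exact (hc.tendsto (a, b)).eventually (lt_mem_nhds (h.2 i k j l))
  filter_upwards [h1, h2] with p e1 e2
  exact ⟨e1, e2⟩

/-- For regular data solvability does not depend on the parameter. -/
theorem solG_of_regular {a b γ : Fin n → ℝ} (hSP : SP a b) (hainj : Function.Injective a)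
    (hbinj : Function.Injective b) (hreg : RegG a b γ)
    (hs : ∑ i, γ i = ∑ i, a i ^ 2 + ∑ i, b i ^ 2) {κ0 κ1 : ℝ}
    (h0 : κ0 ∈ Set.Icc (0 : ℝ) 1) (h1 : κ1 ∈ Set.Icc (0 : ℝ) 1) (h : SolG κ0 a b γ) :
    SolG κ1 a b γ := by
  set S : Set (Set.Icc (0 : ℝ) 1) := {κ | SolG κ a b γ} with hS
  have hclosed : IsClosed S := by
    apply IsSeqClosed.isClosed
    intro u κ hu hlim
    exact solG_closed (u := fun m => (u m : ℝ)) (a := fun _ => a) (b := fun _ => b) (γ := fun _ => γ)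
      ((continuous_subtype_val.tendsto κ).comp hlim) tendsto_const_nhds tendsto_const_nhds
      tendsto_const_nhds hu
  have hopen : IsOpen S := by
    rw [isOpen_iff_mem_nhds]
    intro κ hκ
    obtain ⟨V, W, hV, hW, hF⟩ := hκ
    have hirr : Irr (V * dg b * Vᴴ) := fun T hT =>
      irreducible_of_regG (κ := (κ : ℝ)) hSP.1 hbinj hreg hV hW rfl hF T hT
    have hloc := local_solvG κ.2.1 κ.2.2 hSP hainj hbinj hreg.1 hV hW hF hirr
    have hc : Tendsto (fun κ' : Set.Icc (0 : ℝ) 1 => (((κ' : ℝ), a, b), γ)) (𝓝 κ)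
        (𝓝 (((κ : ℝ), a, b), γ)) := by
      have : Continuous (fun κ' : Set.Icc (0 : ℝ) 1 => (((κ' : ℝ), a, b), γ)) := by fun_prop
      exact this.tendsto κ
    filter_upwards [hc.eventually hloc] with κ' hκ'
    exact hκ' hs
  have hne : S.Nonempty := ⟨⟨κ0, h0⟩, h⟩
  have huniv : S = Set.univ := IsClopen.eq_univ ⟨hclosed, hopen⟩ hne
  have : (⟨κ1, h1⟩ : Set.Icc (0 : ℝ) 1) ∈ S := by rw [huniv]; exact Set.mem_univ _
  exact this

/-- A direction in which the third spectrum becomes regular. -/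
lemma exists_dir : ∃ w : Fin n → ℝ, Function.Injective w ∧ ∑ i, w i = 0 ∧
    ∀ K : Finset (Fin n), ∑ k ∈ K, w k = 0 → K = ∅ ∨ K = Finset.univ := by
  rcases Nat.eq_zero_or_pos n with hn | hn
  · subst hn
    refine ⟨0, fun i => i.elim0, by simp, fun K _ => Or.inl ?_⟩
    exact Finset.eq_empty_of_isEmpty K
  set l : Fin n := ⟨n - 1, by omega⟩ with hl
  set P : ℝ := ∑ k ∈ Finset.univ.erase l, dd k with hP
  have hP0 : 0 ≤ P := Finset.sum_nonneg fun i _ => (dd_pos (n := n) i).le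
  set w : Fin n → ℝ := fun k => if k = l then P else -(dd k) with hw
  have hwl : w l = P := by simp [hw]
  have hwn : ∀ k, k ≠ l → w k = -(dd k) := by intro k hk; simp [hw, hk]
  refine ⟨w, ?_, ?_, ?_⟩
  · intro i j hij
    by_cases hi : i = l
    · by_cases hj : j = l
      · rw [hi, hj]
      · exfalso
        rw [hi, hwl, hwn j hj] at hij
        have := dd_pos j
        linarith
    · by_cases hj : j = l
      · exfalso
        rw [hj, hwl, hwn i hi] at hij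
        have := dd_pos i
        linarith
      · rw [hwn i hi, hwn j hj] at hij
        exact dd_inj (by linarith)
  · rw [← Finset.add_sum_erase Finset.univ w (Finset.mem_univ l), hwl,
      Finset.sum_congr rfl fun k hk => hwn k (Finset.ne_of_mem_erase hk),
      Finset.sum_neg_distrib]
    linarith
  · intro K hK
    by_contra hcon
    push Not at hcon
    obtain ⟨hne, hun⟩ := hcon
    by_cases hlK : l ∈ K
    · have h1 : ∑ k ∈ K, w k = w l + ∑ k ∈ K.erase l, w k := (Finset.add_sum_erase K w hlK).symm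
      have h2 : ∑ k ∈ K.erase l, w k = -(∑ k ∈ K.erase l, dd k) := by
        rw [← Finset.sum_neg_distrib]
        exact Finset.sum_congr rfl fun k hk => hwn k (Finset.ne_of_mem_erase hk)
      obtain ⟨k0, hk0⟩ : ∃ k, k ∉ K := by
        by_contra hall
        push Not at hall
        exact hun (Finset.eq_univ_iff_forall.2 hall)
      have hk0l : k0 ≠ l := fun h => hk0 (h ▸ hlK)
      have h3 : dd k0 + ∑ k ∈ K.erase l, dd k ≤ P := by
        have h4 : k0 ∉ K.erase l := fun h => hk0 (Finset.mem_of_mem_erase h)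
        rw [← Finset.sum_insert h4]
        apply Finset.sum_le_sum_of_subset_of_nonneg
        · intro x hx
          rw [Finset.mem_insert] at hx
          rw [Finset.mem_erase]
          rcases hx with hx | hx
          · exact ⟨hx ▸ hk0l, Finset.mem_univ _⟩
          · exact ⟨Finset.ne_of_mem_erase hx, Finset.mem_univ _⟩
        · intro i _ _; exact (dd_pos i).le
      have h5 := dd_pos k0
      rw [h1, h2, hwl] at hK
      linarith
    · have h2 : ∑ k ∈ K, w k = -(∑ k ∈ K, dd k) := by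
        rw [← Finset.sum_neg_distrib]
        exact Finset.sum_congr rfl fun k hk => hwn k (fun h => hlK (h ▸ hk))
      have h3 : 0 < ∑ k ∈ K, dd k := Finset.sum_pos (fun i _ => dd_pos i) hne
      linarith

lemma regG_eventually {a b γ w : Fin n → ℝ} (h1 : Function.Injective w)
    (h4 : ∀ K : Finset (Fin n), ∑ k ∈ K, w k = 0 → K = ∅ ∨ K = Finset.univ) :
    ∀ᶠ t in 𝓝[≠] (0 : ℝ), RegG a b (fun i => γ i + t * w i) := by
  have hinj : ∀ᶠ t in 𝓝[≠] (0 : ℝ), Function.Injective (fun i => γ i + t * w i) := by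
    have : ∀ᶠ t in 𝓝[≠] (0 : ℝ), ∀ i j : Fin n, i ≠ j → γ i + t * w i ≠ γ j + t * w j := by
      rw [eventually_all]
      intro i
      rw [eventually_all]
      intro j
      by_cases hij : i = j
      · exact Filter.Eventually.of_forall fun t h => absurd hij h
      · have h5 : w i - w j ≠ 0 := sub_ne_zero.2 fun h => hij (h1 h)
        filter_upwards [affine_ne (c := γ i - γ j) h5] with t ht _ heq
        apply ht
        linear_combination heq
    filter_upwards [this] with t ht i j hij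
    by_contra hne
    exact ht i j hne hij
  have hsum : ∀ᶠ t in 𝓝[≠] (0 : ℝ), ∀ I J K : Finset (Fin n),
      ∑ k ∈ K, (γ k + t * w k) = ∑ i ∈ I, a i ^ 2 + ∑ j ∈ J, b j ^ 2 →
      K = ∅ ∨ K = Finset.univ := by
    rw [eventually_all]
    intro I
    rw [eventually_all]
    intro J
    rw [eventually_all]
    intro K
    by_cases hK : K = ∅ ∨ K = Finset.univ
    · exact Filter.Eventually.of_forall fun t _ => hK
    · have h5 : ∑ k ∈ K, w k ≠ 0 := fun h => hK (h4 K h)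
      filter_upwards [affine_ne (c := ∑ k ∈ K, γ k - (∑ i ∈ I, a i ^ 2 + ∑ j ∈ J, b j ^ 2)) h5]
        with t ht heq
      exfalso
      apply ht
      simp only [Finset.sum_add_distrib, ← Finset.mul_sum] at heq
      linear_combination heq
  filter_upwards [hinj, hsum] with t e1 e2
  exact ⟨e1, e2⟩

/-- Regular third spectra are dense near a generic pair. -/
lemma exists_regG_near {κ : ℝ} {a b γ : Fin n → ℝ}
    (hbal : ∑ i, γ i = ∑ i, a i ^ 2 + ∑ i, b i ^ 2)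
    (hloc : ∀ᶠ q : Par n × (Fin n → ℝ) in 𝓝 ((κ, a, b), γ),
      (∑ i, q.2 i = ∑ i, (q.1.2.1 i) ^ 2 + ∑ i, (q.1.2.2 i) ^ 2) →
      SolG q.1.1 q.1.2.1 q.1.2.2 q.2) {ε : ℝ} (hε : 0 < ε) :
    ∃ γ' : Fin n → ℝ, RegG a b γ' ∧ ∑ i, γ' i = ∑ i, a i ^ 2 + ∑ i, b i ^ 2 ∧
      SolG κ a b γ' ∧ dist γ' γ < ε := by
  obtain ⟨w, hw1, hw2, hw3⟩ := exists_dir (n := n)
  set path : ℝ → Par n × (Fin n → ℝ) := fun t => ((κ, a, b), (fun i => γ i + t * w i)) with hpath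
  have hpc : Continuous path := by
    rw [hpath]; fun_prop
  have hp0 : path 0 = ((κ, a, b), γ) := by simp [hpath]
  have hpt : Tendsto path (𝓝[≠] 0) (𝓝 ((κ, a, b), γ)) := by
    rw [← hp0]
    exact (hpc.tendsto 0).mono_left nhdsWithin_le_nhds
  have e1 := hpt.eventually hloc
  have e2 := regG_eventually (a := a) (b := b) (γ := γ) hw1 hw3
  have hpt4 : Tendsto (fun t => (path t).2) (𝓝[≠] 0) (𝓝 γ) :=
    (continuous_snd.tendsto ((κ, a, b), γ)).comp hpt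
  have e7 : ∀ᶠ t in 𝓝[≠] (0 : ℝ), dist (path t).2 γ < ε :=
    hpt4.eventually (Metric.ball_mem_nhds γ hε)
  obtain ⟨t, h1, h2, h7⟩ := (e1.and (e2.and e7)).exists
  have hbal' : ∑ i, (path t).2 i = ∑ i, a i ^ 2 + ∑ i, b i ^ 2 := by
    show ∑ i, (γ i + t * w i) = _
    simp only [Finset.sum_add_distrib, ← Finset.mul_sum]
    rw [hbal, hw2]
    ring
  exact ⟨(path t).2, h2, hbal', h1 hbal', h7⟩

lemma exists_etaG (κ : ℝ) :
    ∃ η : ℝ, 0 < η ∧ hk (dg (dd : Fin n → ℝ) + (η : ℂ) • ones) ≠ 0 ∧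
      hk (G κ (dg (dd : Fin n → ℝ)) (dg dd + (η : ℂ) • ones)) ≠ 0 := by
  have hB : PfM (fun η : ℝ => dg (dd : Fin n → ℝ) + (η : ℂ) • ones) :=
    (PfM.const _).add (PfM.smul Pf.id (PfM.const _))
  have hF : PfM (fun η : ℝ => G κ (dg (dd : Fin n → ℝ)) (dg dd + (η : ℂ) • ones)) := by
    unfold G
    have hA : PfM (fun _ : ℝ => dg (dd : Fin n → ℝ)) := PfM.const _
    exact ((hA.mul hA).add (hB.mul hB)).add (PfM.smul (Pf.const _) ((hA.mul hB).sub (hB.mul hA)))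
  have h1 : hk (dg (dd : Fin n → ℝ) + ((0 : ℝ) : ℂ) • ones) ≠ 0 := by
    rw [Complex.ofReal_zero, zero_smul, add_zero, hk_dg_ne_iff]
    exact dd_inj
  have h2 : hk (G κ (dg (dd : Fin n → ℝ)) (dg dd + ((0 : ℝ) : ℂ) • ones)) ≠ 0 := by
    unfold G
    rw [Complex.ofReal_zero, zero_smul, add_zero, sub_self, smul_zero, add_zero, dg_mul_dg,
      dg_add_dg, hk_dg_ne_iff]
    intro i j hij
    have h3 : dd i * dd i + dd i * dd i = dd j * dd j + dd j * dd j := hij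
    have h4 := dd_pos i
    have h5 := dd_pos j
    apply dd_inj
    nlinarith
  have e1 := (hk_pf hB).eventually_ne h1 0
  have e2 := (hk_pf hF).eventually_ne h2 0
  have e3 : ∀ᶠ η : ℝ in 𝓝[>] 0, 0 < η := self_mem_nhdsWithin
  have hle : 𝓝[>] (0 : ℝ) ≤ 𝓝[≠] 0 := nhdsWithin_mono _ (fun x hx => ne_of_gt hx)
  obtain ⟨η, h4, h5, h6⟩ := (e3.and ((e1.filter_mono hle).and (e2.filter_mono hle))).exists
  exact ⟨η, h4, h5, h6⟩

/-- Generic perturbations of a pair of Hermitian matrices. -/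
lemma exists_genericG (κ : ℝ) (a : Fin n → ℝ)
    {B : Matrix (Fin n) (Fin n) ℂ} (hB : B.IsHermitian) :
    ∃ (am : ℕ → Fin n → ℝ) (Bm : ℕ → Matrix (Fin n) (Fin n) ℂ),
      Tendsto am atTop (𝓝 a) ∧ Tendsto Bm atTop (𝓝 B) ∧
      ∀ m, Function.Injective (am m) ∧ (Bm m).IsHermitian ∧ hk (Bm m) ≠ 0 ∧
        hk (G κ (dg (am m)) (Bm m)) ≠ 0 ∧ Irr (Bm m) := by
  obtain ⟨η, hη, hη1, hη2⟩ := exists_etaG (n := n) κ
  set B1 : Matrix (Fin n) (Fin n) ℂ := dg dd + (η : ℂ) • ones with hB1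
  have hB1h : B1.IsHermitian := by
    apply (dg_isHermitian _).add
    rw [Matrix.IsHermitian, Matrix.conjTranspose_smul, ones_isHermitian.eq]
    simp
  set at' : ℝ → Fin n → ℝ := fun t i => (1 - t) * a i + t * dd i with hat
  set Bt : ℝ → Matrix (Fin n) (Fin n) ℂ := fun t => ((1 - t : ℝ) : ℂ) • B + (t : ℂ) • B1 with hBt
  have hPa : PfM (fun t => dg (at' t)) := by
    intro i j
    by_cases h : i = j
    · subst h
      have : Pf (fun t : ℝ => (1 - (t : ℂ)) * (a i : ℂ) + (t : ℂ) * (dd i : ℂ)) :=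
        (((Pf.const 1).sub Pf.id).mul (Pf.const _)).add (Pf.id.mul (Pf.const _))
      convert this using 2 with t
      simp [dg, hat]
    · have : Pf (fun _ : ℝ => (0 : ℂ)) := Pf.const 0
      convert this using 2 with t
      simp [dg, h]
  have hPB : PfM Bt := by
    have h1 : Pf (fun t : ℝ => ((1 - t : ℝ) : ℂ)) := by
      have : Pf (fun t : ℝ => 1 - (t : ℂ)) := (Pf.const 1).sub Pf.id
      convert this using 2 with t
      push_cast; rfl
    exact (PfM.smul h1 (PfM.const _)).add (PfM.smul Pf.id (PfM.const _))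
  have hPF : PfM (fun t => G κ (dg (at' t)) (Bt t)) := by
    unfold G
    exact ((hPa.mul hPa).add (hPB.mul hPB)).add
      (PfM.smul (Pf.const _) ((hPa.mul hPB).sub (hPB.mul hPa)))
  have hat1 : at' 1 = dd := by
    ext i; simp [hat]
  have hBt1 : Bt 1 = B1 := by
    simp [hBt]
  have ev1 : ∀ᶠ t in 𝓝[≠] (0 : ℝ), hk (dg (at' t)) ≠ 0 :=
    (hk_pf hPa).eventually_ne (t1 := 1) (by rw [hat1, hk_dg_ne_iff]; exact dd_inj) 0
  have ev2 : ∀ᶠ t in 𝓝[≠] (0 : ℝ), hk (Bt t) ≠ 0 :=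
    (hk_pf hPB).eventually_ne (t1 := 1) (by rw [hBt1]; exact hη1) 0
  have ev3 : ∀ᶠ t in 𝓝[≠] (0 : ℝ), hk (G κ (dg (at' t)) (Bt t)) ≠ 0 :=
    (hk_pf hPF).eventually_ne (t1 := 1) (by rw [hBt1, hat1]; exact hη2) 0
  have ev4 : ∀ᶠ t in 𝓝[≠] (0 : ℝ), ∀ j k : Fin n, j ≠ k → Bt t j k ≠ 0 := by
    rw [eventually_all]
    intro j
    rw [eventually_all]
    intro k
    by_cases hjk : j = k
    · exact Filter.Eventually.of_forall fun t h => absurd hjk h
    · have : ∀ᶠ t in 𝓝[≠] (0 : ℝ), Bt t j k ≠ 0 := (hPB j k).eventually_ne (t1 := 1) (by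
        rw [hBt1, hB1]
        simp [dg, hjk, ones, hη.ne']) 0
      filter_upwards [this] with t ht _
      exact ht
  have hle : 𝓝[>] (0 : ℝ) ≤ 𝓝[≠] 0 := nhdsWithin_mono _ (fun x hx => ne_of_gt hx)
  have hall := (ev1.and (ev2.and (ev3.and ev4))).filter_mono hle
  have hseq : ∀ m : ℕ, ∃ t : ℝ, 0 < t ∧ t < 1 / ((m : ℝ) + 2) ∧ hk (dg (at' t)) ≠ 0 ∧
      hk (Bt t) ≠ 0 ∧ hk (G κ (dg (at' t)) (Bt t)) ≠ 0 ∧ ∀ j k : Fin n, j ≠ k → Bt t j k ≠ 0 := by
    intro m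
    have h1 : Set.Ioo (0 : ℝ) (1 / ((m : ℝ) + 2)) ∈ 𝓝[>] (0 : ℝ) :=
      Ioo_mem_nhdsGT (by positivity)
    obtain ⟨t, ht1, ht2⟩ := (hall.and h1).exists
    exact ⟨t, ht2.1, ht2.2, ht1.1, ht1.2.1, ht1.2.2.1, ht1.2.2.2⟩
  choose t ht0 ht1 hh1 hh2 hh3 hh4 using hseq
  have htlim : Tendsto t atTop (𝓝 0) := by
    apply squeeze_zero (fun m => (ht0 m).le) (fun m => (ht1 m).le)
    have h1 : Tendsto (fun m : ℕ => (m : ℝ) + 2) atTop atTop :=
      tendsto_atTop_add_const_right _ _ tendsto_natCast_atTop_atTop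
    have h2 := h1.inv_tendsto_atTop
    refine h2.congr (fun m => ?_)
    rw [Pi.inv_apply, one_div]
  refine ⟨fun m => at' (t m), fun m => Bt (t m), ?_, ?_, ?_⟩
  · have hc : Continuous at' := by
      rw [hat]; fun_prop
    have h0 : at' 0 = a := by ext i; simp [hat]
    have h1 := (hc.tendsto 0).comp htlim
    rw [h0] at h1
    exact h1
  · have hc : Continuous Bt := by
      rw [hBt]; fun_prop
    have h0 : Bt 0 = B := by simp [hBt]
    have h1 := (hc.tendsto 0).comp htlim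
    rw [h0] at h1
    exact h1
  · intro m
    refine ⟨(hk_dg_ne_iff _).1 (hh1 m), ?_, hh2 m, hh3 m, ?_⟩
    · show (((1 - t m : ℝ) : ℂ) • B + (t m : ℂ) • B1).IsHermitian
      rw [Matrix.IsHermitian, Matrix.conjTranspose_add, Matrix.conjTranspose_smul,
        Matrix.conjTranspose_smul, hB.eq, hB1h.eq]
      simp
    · intro S hS
      by_contra hcon
      push Not at hcon
      obtain ⟨j, hj⟩ := hcon.1
      obtain ⟨k, hk'⟩ : ∃ k, k ∉ S := by
        by_contra hall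
        push Not at hall
        exact hcon.2 (Finset.eq_univ_iff_forall.2 hall)
      exact hh4 m j k (fun h => hk' (h ▸ hj)) (hS j hj k hk')

/-- Solvability does not depend on the parameter. -/
def Tr (a b : Fin n → ℝ) : Prop :=
  ∀ κ0 ∈ Set.Icc (0 : ℝ) 1, ∀ κ1 ∈ Set.Icc (0 : ℝ) 1, ∀ γ : Fin n → ℝ,
    SolG κ0 a b γ → SolG κ1 a b γ

/-- Under the strict condition solvability does not depend on the parameter. -/
theorem tr_of_SP {a b : Fin n → ℝ} (hSP : SP a b) : Tr a b := by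
  intro κ0 h0 κ1 h1 γ h
  obtain ⟨V, W, hV, hW, hF⟩ := h
  have hBh : (V * dg b * Vᴴ).IsHermitian :=
    Matrix.isHermitian_mul_mul_conjTranspose V (dg_isHermitian b)
  obtain ⟨am, Bm, ham, hBm, hgen⟩ := exists_genericG κ0 a hBh
  choose Vm hVm hBV using fun m => exists_diag (hgen m).2.1
  set bm : ℕ → Fin n → ℝ := fun m => (hgen m).2.1.eigenvalues with hbm
  obtain ⟨φ1, σ, hφ1, hl1⟩ := eig_limit (b := bm) hBm hVm hBV hV rfl
  have hla : Tendsto (fun m => am (φ1 m)) atTop (𝓝 a) := ham.comp hφ1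
  have hSPev : ∀ᶠ m in atTop, SP (am (φ1 m)) (bm (φ1 m)) :=
    (hla.prodMk_nhds hl1).eventually (SP_eventually (hSP.perm σ))
  obtain ⟨N, hN⟩ := eventually_atTop.1 hSPev
  -- the shifted sequence
  set ψ : ℕ → ℕ := fun m => φ1 (m + N) with hψ
  have hshift : Tendsto (fun m => m + N) atTop atTop := tendsto_add_atTop_nat N
  have hψt : Tendsto ψ atTop atTop := hφ1.comp hshift
  have hSPψ : ∀ m, SP (am (ψ m)) (bm (ψ m)) := fun m => hN (m + N) (Nat.le_add_left N m)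
  have hpt : ∀ m, ∃ (γm γ' : Fin n → ℝ) (Wm : Matrix (Fin n) (Fin n) ℂ), IsU Wm ∧
      G κ0 (dg (am (ψ m))) (Bm (ψ m)) = Wm * dg γm * Wmᴴ ∧
      SolG κ1 (am (ψ m)) (bm (ψ m)) γ' ∧ dist γ' γm < 1 / ((m : ℝ) + 1) := by
    intro m
    obtain ⟨g1, g2, g3, g4, g5⟩ := hgen (ψ m)
    have hFh : (G κ0 (dg (am (ψ m))) (Bm (ψ m))).IsHermitian := G_isHermitian (dg_isHermitian _) g2
    obtain ⟨Wm, hWm, hFW⟩ := exists_diag hFh
    set γm := hFh.eigenvalues with hγm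
    have hbinj : Function.Injective (bm (ψ m)) := by
      rw [← hk_ne_iff (hVm (ψ m)), ← hBV (ψ m)]; exact g3
    have hγinj : Function.Injective γm := by
      rw [← hk_ne_iff hWm, ← hFW]; exact g4
    have hF' : G κ0 (dg (am (ψ m))) (Vm (ψ m) * dg (bm (ψ m)) * (Vm (ψ m))ᴴ)
        = Wm * dg γm * Wmᴴ := by
      rw [← hBV (ψ m)]; exact hFW
    have hirr : Irr (Vm (ψ m) * dg (bm (ψ m)) * (Vm (ψ m))ᴴ) := by rw [← hBV (ψ m)]; exact g5
    have hloc := local_solvG h0.1 h0.2 (hSPψ m) g1 hbinj hγinj (hVm (ψ m)) hWm hF' hirr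
    have hbal : ∑ i, γm i = ∑ i, (am (ψ m) i) ^ 2 + ∑ i, (bm (ψ m) i) ^ 2 := by
      have h2 := trace_G κ0 (am (ψ m)) (bm (ψ m)) (hVm (ψ m))
      rw [hF', trace_conj hWm.1, trace_dg] at h2
      exact_mod_cast h2
    obtain ⟨γ', r1, r2, r3, r4⟩ := exists_regG_near hbal hloc (ε := 1 / ((m : ℝ) + 1))
      (by positivity)
    exact ⟨γm, γ', Wm, hWm, hFW, solG_of_regular (hSPψ m) g1 hbinj r1 r2 h0 h1 r3, r4⟩
  choose γm γ' Wm q1 q2 q3 q4 using hpt
  have hlaψ : Tendsto (fun m => am (ψ m)) atTop (𝓝 a) := ham.comp hψt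
  have hlbψ : Tendsto (fun m => bm (ψ m)) atTop (𝓝 (b ∘ σ)) := hl1.comp hshift
  have hFm : Tendsto (fun m => G κ0 (dg (am (ψ m))) (Bm (ψ m))) atTop
      (𝓝 (G κ0 (dg a) (V * dg b * Vᴴ))) :=
    tendsto_G tendsto_const_nhds ((continuous_dg.tendsto a).comp hlaψ) (hBm.comp hψt)
  obtain ⟨φ2, τ, hφ2, hl2⟩ := eig_limit hFm q1 q2 hW hF
  have hε : Tendsto (fun m : ℕ => 1 / ((m : ℝ) + 1)) atTop (𝓝 0) :=
    tendsto_one_div_add_atTop_nhds_zero_nat
  have hγlim : Tendsto (fun m => γ' (φ2 m)) atTop (𝓝 (γ ∘ τ)) := by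
    refine (tendsto_iff_of_dist ?_).2 hl2
    exact squeeze_zero (fun m => dist_nonneg) (fun m => (q4 (φ2 m)).le) (hε.comp hφ2)
  have hsol : SolG κ1 a (b ∘ σ) (γ ∘ τ) :=
    solG_closed (u := fun _ => κ1) tendsto_const_nhds (hlaψ.comp hφ2) (hlbψ.comp hφ2) hγlim
      (fun m => q3 (φ2 m))
  exact hsol.unperm

/-- The set of good pairs is closed. -/
theorem tr_closed {am bm : ℕ → Fin n → ℝ} {a b : Fin n → ℝ} (ha : Tendsto am atTop (𝓝 a))
    (hb : Tendsto bm atTop (𝓝 b)) (h : ∀ᶠ m in atTop, Tr (am m) (bm m)) : Tr a b := by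
  intro κ0 h0 κ1 h1 γ hs
  obtain ⟨V, W, hV, hW, hF⟩ := hs
  obtain ⟨N, hN⟩ := eventually_atTop.1 h
  have hshift : Tendsto (fun m => m + N) atTop atTop := tendsto_add_atTop_nat N
  have ha' := ha.comp hshift
  have hb' := hb.comp hshift
  have hpt : ∀ m, ∃ (γm : Fin n → ℝ) (Wm : Matrix (Fin n) (Fin n) ℂ), IsU Wm ∧
      G κ0 (dg (am (m + N))) (V * dg (bm (m + N)) * Vᴴ) = Wm * dg γm * Wmᴴ ∧
      SolG κ1 (am (m + N)) (bm (m + N)) γm := by
    intro m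
    have hFh : (G κ0 (dg (am (m + N))) (V * dg (bm (m + N)) * Vᴴ)).IsHermitian :=
      G_isHermitian (dg_isHermitian _)
        (Matrix.isHermitian_mul_mul_conjTranspose V (dg_isHermitian _))
    obtain ⟨Wm, hWm, hFW⟩ := exists_diag hFh
    exact ⟨hFh.eigenvalues, Wm, hWm, hFW,
      hN (m + N) (Nat.le_add_left N m) κ0 h0 κ1 h1 _ ⟨V, Wm, hV, hWm, hFW⟩⟩
  choose γm Wm q1 q2 q3 using hpt
  have hFm : Tendsto (fun m => G κ0 (dg (am (m + N))) (V * dg (bm (m + N)) * Vᴴ)) atTop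
      (𝓝 (G κ0 (dg a) (V * dg b * Vᴴ))) :=
    tendsto_G tendsto_const_nhds ((continuous_dg.tendsto a).comp ha')
      (tendsto_conj hb' tendsto_const_nhds)
  obtain ⟨φ2, τ, hφ2, hl2⟩ := eig_limit hFm q1 q2 hW hF
  have hsol : SolG κ1 a b (γ ∘ τ) :=
    solG_closed (u := fun _ => κ1) tendsto_const_nhds (ha'.comp hφ2) (hb'.comp hφ2) hl2
      (fun m => q3 (φ2 m))
  exact SolG.unperm (σ := Equiv.refl _) (τ := τ) hsol

end Pool.Agent.Helper69.Cart
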